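import Pool.Agent.K1H14.KS.Main

namespace Pool.Agent.K1H14.KS

open CliffordAlgebra QuadraticMap

variable {T : Type*} [AddCommGroup T] [Module ℂ T] {Q : QuadraticForm ℂ T}
  {I : Type*} [DecidableEq I]
  {A : ∀ n : ℕ, Submodule ℂ (Form Q n)}

lemma kill_snd {n : ℕ} {u : Form Q n} (hu : u ∈ A n) (j : Fin n) (w : Fin n → W Q) (t : T)
    {Y : T →ₗ[ℂ] T} (h : LieA A 0 Y) :
    u (Function.update (fun i => ((w i, 0) : V Q)) j (0, Y t)) = 0 := by
  have h1 := h n u hu (Function.update (fun i => ((w i, 0) : V Q)) j (0, t))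
  rw [Finset.sum_eq_single j] at h1
  · rw [Function.update_self, Function.update_idem] at h1
    have : (pr (0 : W Q) Y) ((0 : W Q), t) = (0, Y t) := by
      refine Prod.ext ?_ rfl
      show (0 : W Q) * 0 = 0
      rw [mul_zero]
    rwa [this] at h1
  · intro i _ hij
    rw [Function.update_of_ne hij]
    have : (pr (0 : W Q) Y) ((w i, 0) : V Q) = 0 := by
      refine Prod.ext ?_ (map_zero Y)
      show (0 : W Q) * w i = 0
      rw [zero_mul]
    rw [this]
    exact u.map_update_zero _ i
  · intro hj; exact absurd (Finset.mem_univ j) hj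

lemma not_lieA (b : Module.Basis I ℂ T) (hb : ONB Q b) (hA : IsMotivic A) (hL : HasLink A)
    {i j : I} (hij : i ≠ j) : ¬ LieA A 0 (wedge Q (b i) (b j)) := by
  intro h
  obtain ⟨n, u, l, w, t, hu, hne⟩ := hL
  apply hne
  let φ : T →ₗ[ℂ] ℂ := (u.toLinearMap (fun i => ((w i, 0) : V Q)) l) ∘ₗ (LinearMap.inr ℂ (W Q) T)
  have hφ : ∀ s, φ s = u (Function.update (fun i => ((w i, 0) : V Q)) l (0, s)) := fun s => rfl
  have hk : ∀ (Y : T →ₗ[ℂ] T), LieA A 0 Y → ∀ s, φ (Y s) = 0 := by
    intro Y hY s
    rw [hφ]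
    exact kill_snd hu l w s hY
  have hi : φ (b i) = 0 := by
    have := hk _ h (b j)
    rw [wedge_apply, hb.polar_self, hb.orth i j hij, zero_smul, sub_zero, map_smul] at this
    exact (smul_eq_zero.mp this).resolve_left two_ne_zero
  have hj : φ (b j) = 0 := by
    have := hk _ h (b i)
    rw [wedge_apply, hb.polar_self, hb.orth j i hij.symm, zero_smul, zero_sub, map_neg, map_smul,
      neg_eq_zero] at this
    exact (smul_eq_zero.mp this).resolve_left two_ne_zero
  have hk' : ∀ k, φ (b k) = 0 := by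
    intro k
    by_cases h1 : k = i
    · rw [h1]; exact hi
    by_cases h2 : k = j
    · rw [h2]; exact hj
    have h3 : LieA A (pairW Q (b k) (b i)) (wedge Q (b k) (b i)) := fun m f hf =>
      (hA.1 m f hf).2 _ _ (isLiePair_wedge _ _ (hb.orth k i h1))
    have h4 := h3.bracket h
    rw [mul_zero, zero_mul, sub_zero] at h4
    have h5 := hk _ h4 (b j)
    simp only [LinearMap.sub_apply, LinearMap.comp_apply, wedge_apply, hb.polar_self,
      hb.orth i j hij, hb.orth k j h2, zero_smul, sub_zero, map_smul,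
      smul_zero, hb.orth k i h1, map_zero] at h5
    exact (smul_eq_zero.mp ((smul_eq_zero.mp h5).resolve_left two_ne_zero)).resolve_left
      two_ne_zero
  have hφ0 : φ = 0 := b.ext hk'
  rw [← hφ, hφ0]
  rfl

/-- the kernel of the projection of the Lie algebra on `𝔰𝔬(T)` -/
def NN (A : ∀ n : ℕ, Submodule ℂ (Form Q n)) : Submodule ℂ (CliffordAlgebra Q) where
  carrier := {x | ∃ hx : x ∈ even Q, LieA A ⟨x, hx⟩ 0}
  zero_mem' := ⟨zero_mem _, LieA.zero⟩
  add_mem' := by
    rintro x y ⟨hx, h⟩ ⟨hy, h'⟩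
    refine ⟨add_mem hx hy, ?_⟩
    have := h.add h'
    rw [add_zero] at this
    exact this
  smul_mem' := by
    rintro c x ⟨hx, h⟩
    refine ⟨Subalgebra.smul_mem _ hx c, ?_⟩
    have := h.smul c
    rw [smul_zero] at this
    exact this

lemma mem_NN {x : W Q} : (x : CliffordAlgebra Q) ∈ NN A ↔ LieA A x 0 :=
  ⟨fun ⟨_, h⟩ => h, fun h => ⟨x.2, h⟩⟩

/-- `[a, x]` for `(a, Y)` in the Lie algebra, `x` in the kernel -/
lemma bracket_mem_NN {a : W Q} {Y : T →ₗ[ℂ] T} (ha : LieA A a Y) {x : CliffordAlgebra Q}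
    (hx : x ∈ NN A) : (a : CliffordAlgebra Q) * x - x * a ∈ NN A := by
  obtain ⟨hx, h⟩ := hx
  have h1 := ha.bracket h
  rw [LinearMap.comp_zero, LinearMap.zero_comp, sub_zero] at h1
  exact ⟨sub_mem (mul_mem a.2 hx) (mul_mem hx a.2), h1⟩

lemma NN_eq_bot [Fintype I] (hI : Odd (Fintype.card I)) (b : Module.Basis I ℂ T) (hb : ONB Q b)
    (hA : IsMotivic A) (hnot : ∀ i j : I, i ≠ j → ¬ LieA A 0 (wedge Q (b i) (b j))) : NN A = ⊥ := by
  haveI : Invertible (2 : ℂ) := invertibleOfNonzero two_ne_zero
  set E : I → CliffordAlgebra Q := fun i => ι Q (b i) with hEdef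
  have hE : Anti E := hb.anti
  have hw : ∀ i j, i ≠ j → LieA A (pairW Q (b i) (b j)) (wedge Q (b i) (b j)) :=
    fun i j hij m f hf => (hA.1 m f hf).2 _ _ (isLiePair_wedge _ _ (hb.orth i j hij))
  by_contra hcon
  obtain ⟨y, hy, hy0⟩ := Submodule.exists_mem_ne_zero_of_ne_bot hcon
  obtain ⟨i₀⟩ : Nonempty I := by
    rw [← Fintype.card_pos_iff]; exact hI.pos
  have hN : NN A ≤ Sev E := fun x ⟨hx, _⟩ => even_le b x hx
  have hst : ∀ j, ∀ x ∈ NN A, al E i₀ j x ∈ NN A := by
    intro j x hx
    rw [al_apply]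
    by_cases h : j = i₀
    · subst h; rw [hE.sq, one_mul, mul_one]; exact hx
    · have hij : i₀ ≠ j := fun e => h e.symm
      have h1 := bracket_mem_NN (hw i₀ j hij) (bracket_mem_NN (hw i₀ j hij) hx)
      have h2 : ((pairW Q (b i₀) (b j) : W Q) : CliffordAlgebra Q) = E i₀ * E j := rfl
      rw [h2] at h1
      have h3 : (E i₀ * E j) * (E i₀ * E j) = -1 := by
        rw [hE.anti i₀ j hij]
        calc -(E j * E i₀) * -(E j * E i₀) = (E j * E i₀) * (E j * E i₀) := neg_mul_neg _ _
          _ = (E j * E i₀) * (- (E i₀ * E j)) := by rw [hE.anti j i₀ h]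
          _ = - (E j * (E i₀ * E i₀) * E j) := by noncomm_ring
          _ = -1 := by rw [hE.sq, mul_one, hE.sq]
      have h4 : E j * E i₀ = - (E i₀ * E j) := hE.anti j i₀ h
      have h5 : E i₀ * E j * (x * (E j * E i₀)) = x + (1 / 2 : ℂ) •
          ((E i₀ * E j) * ((E i₀ * E j) * x - x * (E i₀ * E j)) -
            ((E i₀ * E j) * x - x * (E i₀ * E j)) * (E i₀ * E j)) := by
        rw [h4]
        generalize E i₀ * E j = a at h3
        have h6 : a * (a * x - x * a) - (a * x - x * a) * a = (a * a) * x + x * (a * a)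
            - (a * x * a + a * x * a) := by noncomm_ring
        rw [h6, h3, mul_neg, mul_neg, ← mul_assoc, neg_one_mul, mul_neg_one]
        module
      rw [h5]
      exact add_mem hx (Submodule.smul_mem _ _ h1)
  obtain ⟨l, hl, hm⟩ := exists_mono_mem hI hE i₀ (NN A) hN hst y hy hy0
  have hm' := hm
  obtain ⟨hmev, hmL⟩ := hm'
  have hsk : reverse (mono E l) + mono E l = 0 := hmL.skew hA
  have hrev : ∀ l : List I, reverse (mono E l) = mono E l.reverse := by
    intro l
    induction l with
    | nil => simp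
    | cons a l ih =>
      rw [mono_cons, reverse.map_mul, ih, List.reverse_cons, mono_append, mono_cons, mono_nil,
        mul_one]
      show _ * reverse (ι Q (b a)) = _ * ι Q (b a)
      rw [reverse_ι]
  have hmm : mono E l * mono E l = -1 := by
    have h1 := mono_mul_reverse hE l
    rw [← hrev, eq_neg_of_add_eq_zero_left hsk, mul_neg] at h1
    rw [← h1, neg_neg]
  by_cases hc : ∀ i j, i ≠ j → E i * E j * mono E l = mono E l * (E i * E j)
  · obtain ⟨c, hc⟩ := scalar_of_commute hI hE (mono E l) (hN hm) hc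
    rw [hc, map_smul, reverse.map_one] at hsk
    have h1 : mono E l = 0 := by
      rw [hc]
      have h2 : (2 : ℂ) • (c • (1 : CliffordAlgebra Q)) = 0 := by rw [two_smul]; exact hsk
      exact (smul_eq_zero.mp h2).resolve_left two_ne_zero
    rw [h1, zero_mul] at hmm
    exact one_ne_zero (neg_eq_zero.mp hmm.symm)
  · push Not at hc
    obtain ⟨i, j, hij, hne⟩ := hc
    have h1 : mono E l * (E i * E j) = (sg i l * sg j l) • (E i * E j * mono E l) := by
      rw [← mul_assoc, mono_mul_E hE, smul_mul_assoc, mul_assoc, mono_mul_E hE, mul_smul_comm,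
        smul_smul, ← mul_assoc]
    have h2 : sg i l * sg j l = -1 := by
      rcases sg_or i l with h | h <;> rcases sg_or j l with h' | h' <;> rw [h, h'] at h1 ⊢ <;>
        norm_num at h1 ⊢ <;> exact absurd h1.symm hne
    rw [h2, neg_one_smul] at h1
    -- the bracket with the pair
    have h3 := bracket_mem_NN (hw i j hij) hm
    have h4 : ((pairW Q (b i) (b j) : W Q) : CliffordAlgebra Q) = E i * E j := rfl
    rw [h4, h1, sub_neg_eq_add] at h3
    have h5 := bracket_mem_NN (a := ⟨mono E l, hmev⟩) hmL h3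
    have h6 : mono E l * (E i * E j * mono E l + E i * E j * mono E l) -
        (E i * E j * mono E l + E i * E j * mono E l) * mono E l = (4 : ℂ) • (E i * E j) := by
      calc mono E l * (E i * E j * mono E l + E i * E j * mono E l) -
        (E i * E j * mono E l + E i * E j * mono E l) * mono E l
          = (mono E l * (E i * E j)) * mono E l + (mono E l * (E i * E j)) * mono E l
            - (E i * E j * (mono E l * mono E l) + E i * E j * (mono E l * mono E l)) := by
            noncomm_ring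
        _ = - (E i * E j * (mono E l * mono E l)) - (E i * E j * (mono E l * mono E l))
            - (E i * E j * (mono E l * mono E l) + E i * E j * (mono E l * mono E l)) := by
            rw [h1]; noncomm_ring
        _ = (4 : ℂ) • (E i * E j) := by rw [hmm, mul_neg_one]; module
    have h7 : mono E l * (E i * E j * mono E l + E i * E j * mono E l) -
        (E i * E j * mono E l + E i * E j * mono E l) * mono E l ∈ NN A := h5
    rw [h6, Submodule.smul_mem_iff _ (by norm_num : (4 : ℂ) ≠ 0)] at h7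
    have h8 : LieA A (pairW Q (b i) (b j)) 0 := mem_NN.mp h7
    have h9 := (hw i j hij).add (h8.smul (-1))
    rw [neg_one_smul, add_neg_cancel, smul_zero, add_zero] at h9
    exact hnot i j hij h9

end Pool.Agent.K1H14.KS
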