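import Mathlib

/-!
# The Kuga-Satake situation, in linear algebra

`T` is a complex quadratic space (the transcendental cohomology `H²_tr(X, ℂ)` of a K3 surface or
of a hyper-Kähler variety `X`), `W Q` is its even Clifford algebra (the space `H¹(KS(X), ℂ)`) and
`V Q = W Q × T`.  A `Form Q n` is an `n`-linear form on `V Q`, i.e. (through the polarisations) a
class in the cohomology of the varieties `X^a × KS(X)^b`, `a + b = n`.
-/

namespace Pool.Agent.K1H14.KS

open CliffordAlgebra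

variable {T : Type*} [AddCommGroup T] [Module ℂ T]

/-- `f` is invariant under the linear map `g`. -/
def Fixes {V : Type*} [AddCommGroup V] [Module ℂ V] {n : ℕ}
    (g : V →ₗ[ℂ] V) (f : MultilinearMap ℂ (fun _ : Fin n => V) ℂ) : Prop :=
  ∀ v : Fin n → V, f (fun i => g (v i)) = f v

/-- `f` is killed by the linear map `D`, acting as a derivation. -/
def Kills {V : Type*} [AddCommGroup V] [Module ℂ V] {n : ℕ}
    (D : V →ₗ[ℂ] V) (f : MultilinearMap ℂ (fun _ : Fin n => V) ℂ) : Prop :=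
  ∀ v : Fin n → V, ∑ i, f (Function.update v i (D (v i))) = 0

/-- The even Clifford algebra of `T`: the space `H¹(KS(X), ℂ)`. -/
abbrev W (Q : QuadraticForm ℂ T) : Type _ := ↥(CliffordAlgebra.even Q)

/-- `H¹(KS(X), ℂ) ⊕ H²_tr(X, ℂ)`. -/
abbrev V (Q : QuadraticForm ℂ T) : Type _ := W Q × T

/-- The `n`-linear forms on `V Q`. -/
abbrev Form (Q : QuadraticForm ℂ T) (n : ℕ) : Type _ :=
  MultilinearMap ℂ (fun _ : Fin n => V Q) ℂ

/-- The linear map `(w, t) ↦ (x w, Y t)` of `V Q`. -/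
def pr {Q : QuadraticForm ℂ T} (x : W Q) (Y : T →ₗ[ℂ] T) : V Q →ₗ[ℂ] V Q :=
  (LinearMap.mulLeft ℂ x).prodMap Y

/-- `(x, t)` is an element of the group `Spin(T)`, with its action `t` on `T`: `x` lies in the even
Clifford algebra, `x* x = 1` and `x v x* = t v` for all vectors `v`. -/
def IsSpinPair {Q : QuadraticForm ℂ T} (x : W Q) (t : T →ₗ[ℂ] T) : Prop :=
  reverse (x : CliffordAlgebra Q) * (x : CliffordAlgebra Q) = 1 ∧
    ∀ v : T, (x : CliffordAlgebra Q) * ι Q v * reverse (x : CliffordAlgebra Q) = ι Q (t v)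

/-- `(x, Y)` is an element of the Lie algebra of `Spin(T)`, with its action `Y` on `T`: `x` lies
in the even Clifford algebra, `x* + x = 0` and `x v - v x = Y v` for all vectors `v`. -/
def IsLiePair {Q : QuadraticForm ℂ T} (x : W Q) (Y : T →ₗ[ℂ] T) : Prop :=
  reverse (x : CliffordAlgebra Q) + (x : CliffordAlgebra Q) = 0 ∧
    ∀ v : T, (x : CliffordAlgebra Q) * ι Q v - ι Q v * (x : CliffordAlgebra Q) = ι Q (Y v)

/-- The Hodge classes, when the Mumford-Tate group of `T` is as large as possible: the forms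
invariant under `Spin(T)` (that is, under its points and under its Lie algebra). -/
def IsHodge {Q : QuadraticForm ℂ T} {n : ℕ} (f : Form Q n) : Prop :=
  (∀ (x : W Q) (t : T →ₗ[ℂ] T), IsSpinPair x t → Fixes (pr x t) f) ∧
    ∀ (x : W Q) (Y : T →ₗ[ℂ] T), IsLiePair x Y → Kills (pr x Y) f

/-- What is known about the algebraic classes `A n`: they are Hodge classes; the divisor classes
of `KS(X) × KS(X)` (all the invariant bilinear forms `(w, w') ↦ μ(w* w')` on `H¹`, by the Lefschetz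
(1,1) theorem) and the intersection form of `T` are algebraic; and they are all the invariants of
the group which fixes them (homological equivalence is numerical equivalence, so that the category
of motives is semisimple and Tannakian). -/
def IsMotivic {Q : QuadraticForm ℂ T} (A : ∀ n : ℕ, Submodule ℂ (Form Q n)) : Prop :=
  (∀ n, ∀ f ∈ A n, IsHodge f) ∧
  (∀ μ : CliffordAlgebra Q →ₗ[ℂ] ℂ, ∃ f ∈ A 2, ∀ v : Fin 2 → V Q,
    f v = μ (reverse ((v 0).1 : CliffordAlgebra Q) * ((v 1).1 : CliffordAlgebra Q))) ∧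
  (∃ f ∈ A 2, ∀ v : Fin 2 → V Q, f v = QuadraticMap.polar Q (v 0).2 (v 1).2) ∧
  (∀ (n : ℕ) (f : Form Q n),
    (∀ g : V Q ≃ₗ[ℂ] V Q, (∀ m, ∀ f' ∈ A m, Fixes (g : V Q →ₗ[ℂ] V Q) f') →
      Fixes (g : V Q →ₗ[ℂ] V Q) f) → f ∈ A n)

/-- Some algebraic class has a nonzero component in `H¹(KS(X))^{⊗ (n-1)} ⊗ T` (the factor `T` at
the place `j`). -/
def HasLink {Q : QuadraticForm ℂ T} (A : ∀ n : ℕ, Submodule ℂ (Form Q n)) : Prop :=
  ∃ (n : ℕ) (u : Form Q n) (j : Fin n) (w : Fin n → W Q) (t : T), u ∈ A n ∧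
    u (Function.update (fun i => ((w i, 0) : V Q)) j (0, t)) ≠ 0

/-- `κ` is a Kuga-Satake class, in `H¹(KS(X)) ⊗ T ⊗ H¹(KS(X))`: it is nonzero, and
`κ(w, t, w') = μ(w* t w')` for a linear form `μ`. -/
def IsKugaSatake {Q : QuadraticForm ℂ T} (κ : Form Q 3) : Prop :=
  κ ≠ 0 ∧ ∃ μ : CliffordAlgebra Q →ₗ[ℂ] ℂ, ∀ v : Fin 3 → V Q,
    κ v = μ (reverse ((v 0).1 : CliffordAlgebra Q) * ι Q (v 1).2 * ((v 2).1 : CliffordAlgebra Q))

/-- Some algebraic class is not invariant under the orthogonal Lie algebra acting on the factors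
`T` only. -/
def IsMixed {Q : QuadraticForm ℂ T} (A : ∀ n : ℕ, Submodule ℂ (Form Q n)) : Prop :=
  ∃ (n : ℕ) (f : Form Q n) (Y : T →ₗ[ℂ] T), f ∈ A n ∧
    (∀ s, QuadraticMap.polar Q (Y s) s = 0) ∧ ¬ Kills (pr 0 Y) f

end Pool.Agent.K1H14.KS
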