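import Pool.Agent.K1H14.KS.Stab

namespace Pool.Agent.K1H14.KS

open CliffordAlgebra QuadraticMap

variable {T : Type*} [AddCommGroup T] [Module ℂ T] {Q : QuadraticForm ℂ T}
  {I : Type*} [DecidableEq I] {lam : CliffordAlgebra Q →ₗ[ℂ] ℂ}
  {A : ∀ n : ℕ, Submodule ℂ (Form Q n)}

/-- existence of an orthonormal basis -/
lemma exists_onb [FiniteDimensional ℂ T] (hQ : ∀ t : T, (∀ s : T, polar Q s t = 0) → t = 0) :
    ∃ b : Module.Basis (Fin (Module.finrank ℂ T)) ℂ T, ONB Q b := by
  have h2 : (associated (R := ℂ) Q).SeparatingLeft := by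
    intro x hx
    apply hQ
    intro s
    have h1 := hx s
    have h3 := LinearMap.congr_fun₂ (QuadraticMap.two_nsmul_associated (S := ℂ) (Q := Q)) x s
    rw [LinearMap.smul_apply, LinearMap.smul_apply, h1, smul_zero] at h3
    rw [polar_comm]
    exact h3.symm
  obtain ⟨e⟩ := QuadraticForm.equivalent_weightedSumSquares_of_isAlgClosed Q h2
  let b : Module.Basis (Fin (Module.finrank ℂ T)) ℂ T :=
    Module.Basis.ofEquivFun e.toLinearEquiv
  have hb : ∀ i, b i = e.symm (Pi.single i 1) := by
    intro i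
    simp [b, Module.Basis.ofEquivFun]
  have hQe : ∀ v, Q (e.symm v) = weightedSumSquares ℂ (1 : Fin (Module.finrank ℂ T) → ℂ) v :=
    fun v => e.symm.map_app v
  refine ⟨b, ?_, ?_⟩
  · intro i
    rw [hb, hQe, weightedSumSquares_apply]
    simp [Pi.single_apply]
  · intro i j hij
    rw [polar, hb, hb, ← map_add, hQe, hQe, hQe]
    simp only [weightedSumSquares_apply, Pi.one_apply, one_smul]
    rw [← Finset.sum_sub_distrib, ← Finset.sum_sub_distrib]
    refine Finset.sum_eq_zero (fun k _ => ?_)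
    simp only [Pi.add_apply, Pi.single_apply]
    by_cases h1 : k = i
    · have h2 : k ≠ j := fun e => hij (h1.symm.trans e)
      rw [if_pos h1, if_neg h2]; ring
    · rw [if_neg h1]; split_ifs <;> ring

/-- the Kuga-Satake class -/
noncomputable def kap (lam : CliffordAlgebra Q →ₗ[ℂ] ℂ) : Form Q 3 :=
  lam.compMultilinearMap ((MultilinearMap.mkPiAlgebraFin ℂ 3 (CliffordAlgebra Q)).compLinearMap
    ![reverse ∘ₗ (even Q).val.toLinearMap ∘ₗ LinearMap.fst ℂ (W Q) T,
      ι Q ∘ₗ LinearMap.snd ℂ (W Q) T,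
      (even Q).val.toLinearMap ∘ₗ LinearMap.fst ℂ (W Q) T])

lemma kap_apply (v : Fin 3 → V Q) :
    kap lam v = lam (reverse ((v 0).1 : CliffordAlgebra Q) * ι Q (v 1).2 *
      ((v 2).1 : CliffordAlgebra Q)) := by
  simp only [kap, LinearMap.compMultilinearMap_apply, MultilinearMap.compLinearMap_apply,
    MultilinearMap.mkPiAlgebraFin_apply]
  simp [List.ofFn_succ, mul_assoc]

/-- the Kuga-Satake classes are Hodge classes -/
lemma kap_hodge {κ : Form Q 3} (hκ : IsKugaSatake κ) : IsHodge κ := by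
  obtain ⟨-, μ, hκ⟩ := hκ
  refine ⟨?_, ?_⟩
  · rintro x t ⟨hx, ht⟩ v
    rw [hκ, hκ]
    simp only [pr, LinearMap.prodMap_apply, LinearMap.mulLeft_apply, MulMemClass.coe_mul,
      reverse.map_mul]
    rw [← ht]
    congr 1
    generalize reverse ((v 0).1 : CliffordAlgebra Q) = a
    generalize ((v 2).1 : CliffordAlgebra Q) = c
    generalize ι Q (v 1).2 = s
    generalize reverse (x : CliffordAlgebra Q) = xr at hx ⊢
    generalize (x : CliffordAlgebra Q) = y at hx ⊢
    calc a * xr * (y * s * xr) * (y * c) = a * (xr * y) * s * (xr * y) * c := by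
          noncomm_ring
      _ = a * s * c := by rw [hx]; noncomm_ring
  · rintro x Y ⟨hx, hY⟩ v
    rw [Fin.sum_univ_three]
    simp only [hκ]
    have e01 : (0 : Fin 3) ≠ 1 := by decide
    have e02 : (0 : Fin 3) ≠ 2 := by decide
    have e12 : (1 : Fin 3) ≠ 2 := by decide
    simp only [Function.update_self, Function.update_of_ne e01, Function.update_of_ne e01.symm,
      Function.update_of_ne e02, Function.update_of_ne e02.symm, Function.update_of_ne e12,
      Function.update_of_ne e12.symm, pr, LinearMap.prodMap_apply, LinearMap.mulLeft_apply,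
      MulMemClass.coe_mul, reverse.map_mul]
    rw [← hY, ← map_add, ← map_add]
    have h1 : reverse (x : CliffordAlgebra Q) = - (x : CliffordAlgebra Q) :=
      eq_neg_of_add_eq_zero_left hx
    rw [h1]
    generalize reverse ((v 0).1 : CliffordAlgebra Q) = a
    generalize ((v 2).1 : CliffordAlgebra Q) = c
    generalize ι Q (v 1).2 = s
    generalize (x : CliffordAlgebra Q) = y
    have : a * -y * s * c + a * (y * s - s * y) * c + a * s * (y * c) = 0 := by noncomm_ring
    rw [this, map_zero]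

/-- a Kuga-Satake class is a link -/
lemma ks_link (κ : Form Q 3) (hκ : IsKugaSatake κ) :
    ∃ (w : Fin 3 → W Q) (t : T),
      κ (Function.update (fun i => ((w i, 0) : V Q)) 1 (0, t)) ≠ 0 := by
  obtain ⟨h0, μ, hκ⟩ := hκ
  by_contra hcon
  push Not at hcon
  apply h0
  ext v
  have h1 := hcon ![(v 0).1, 0, (v 2).1] (v 1).2
  rw [hκ] at h1
  have e01 : (0 : Fin 3) ≠ 1 := by decide
  have e12 : (1 : Fin 3) ≠ 2 := by decide
  rw [Function.update_self, Function.update_of_ne e01, Function.update_of_ne e12.symm] at h1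
  rw [hκ]
  simpa using h1

/-- there is a Kuga-Satake class -/
lemma exists_ks (b : Module.Basis I ℂ T) (hb : ONB Q b) (i₀ : I) :
    ∃ κ : Form Q 3, IsKugaSatake κ := by
  have : Invertible (2 : ℂ) := invertibleOfNonzero two_ne_zero
  have h3 : ι Q (b i₀) ≠ 0 := by
    intro h
    have h4 : ι Q (b i₀) * ι Q (b i₀) = 1 := hb.anti.sq i₀
    rw [h, zero_mul] at h4
    exact zero_ne_one h4
  obtain ⟨μ, hμ⟩ : ∃ μ : CliffordAlgebra Q →ₗ[ℂ] ℂ, μ (ι Q (b i₀)) ≠ 0 := by
    by_contra hcon
    push Not at hcon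
    exact h3 ((Module.forall_dual_apply_eq_zero_iff ℂ _).mp hcon)
  refine ⟨kap μ, ?_, μ, kap_apply⟩
  intro h
  apply hμ
  have h1 : kap μ ![(1, 0), (0, b i₀), (1, 0)] = 0 := by rw [h]; rfl
  rw [kap_apply] at h1
  simpa using h1

/-- the form `(w, s, t, w') ↦ λ(w* s t w')` -/
noncomputable def kap4 (lam : CliffordAlgebra Q →ₗ[ℂ] ℂ) : Form Q 4 :=
  lam.compMultilinearMap ((MultilinearMap.mkPiAlgebraFin ℂ 4 (CliffordAlgebra Q)).compLinearMap
    ![reverse ∘ₗ (even Q).val.toLinearMap ∘ₗ LinearMap.fst ℂ (W Q) T,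
      ι Q ∘ₗ LinearMap.snd ℂ (W Q) T, ι Q ∘ₗ LinearMap.snd ℂ (W Q) T,
      (even Q).val.toLinearMap ∘ₗ LinearMap.fst ℂ (W Q) T])

lemma kap4_apply (v : Fin 4 → V Q) :
    kap4 lam v = lam (reverse ((v 0).1 : CliffordAlgebra Q) * (ι Q (v 1).2 * ι Q (v 2).2) *
      ((v 3).1 : CliffordAlgebra Q)) := by
  simp only [kap4, LinearMap.compMultilinearMap_apply, MultilinearMap.compLinearMap_apply,
    MultilinearMap.mkPiAlgebraFin_apply]
  simp [List.ofFn_succ, mul_assoc]

lemma kap4_hodge : IsHodge (kap4 (Q := Q) lam) := by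
  refine ⟨?_, ?_⟩
  · rintro x t ⟨hx, ht⟩ v
    rw [kap4_apply, kap4_apply]
    simp only [pr, LinearMap.prodMap_apply, LinearMap.mulLeft_apply, MulMemClass.coe_mul,
      reverse.map_mul]
    rw [← ht, ← ht]
    congr 1
    generalize reverse ((v 0).1 : CliffordAlgebra Q) = a
    generalize ((v 3).1 : CliffordAlgebra Q) = c
    generalize ι Q (v 1).2 = s
    generalize ι Q (v 2).2 = s'
    generalize reverse (x : CliffordAlgebra Q) = xr at hx ⊢
    generalize (x : CliffordAlgebra Q) = y at hx ⊢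
    calc a * xr * (y * s * xr * (y * s' * xr)) * (y * c)
        = a * (xr * y) * s * (xr * y) * s' * (xr * y) * c := by noncomm_ring
      _ = a * (s * s') * c := by rw [hx]; noncomm_ring
  · rintro x Y ⟨hx, hY⟩ v
    rw [Fin.sum_univ_four]
    simp only [kap4_apply]
    have e01 : (0 : Fin 4) ≠ 1 := by decide
    have e02 : (0 : Fin 4) ≠ 2 := by decide
    have e03 : (0 : Fin 4) ≠ 3 := by decide
    have e12 : (1 : Fin 4) ≠ 2 := by decide
    have e13 : (1 : Fin 4) ≠ 3 := by decide
    have e23 : (2 : Fin 4) ≠ 3 := by decide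
    simp only [Function.update_self, Function.update_of_ne e01, Function.update_of_ne e01.symm,
      Function.update_of_ne e02, Function.update_of_ne e02.symm, Function.update_of_ne e12,
      Function.update_of_ne e12.symm, Function.update_of_ne e03, Function.update_of_ne e03.symm,
      Function.update_of_ne e13, Function.update_of_ne e13.symm, Function.update_of_ne e23,
      Function.update_of_ne e23.symm, pr, LinearMap.prodMap_apply, LinearMap.mulLeft_apply,
      MulMemClass.coe_mul, reverse.map_mul]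
    rw [← hY, ← hY, ← map_add, ← map_add, ← map_add]
    have h1 : reverse (x : CliffordAlgebra Q) = - (x : CliffordAlgebra Q) :=
      eq_neg_of_add_eq_zero_left hx
    rw [h1]
    generalize reverse ((v 0).1 : CliffordAlgebra Q) = a
    generalize ((v 3).1 : CliffordAlgebra Q) = c
    generalize ι Q (v 1).2 = s
    generalize ι Q (v 2).2 = s'
    generalize (x : CliffordAlgebra Q) = y
    have : a * -y * (s * s') * c + a * ((y * s - s * y) * s') * c + a * (s * (y * s' - s' * y)) * c
        + a * (s * s') * (y * c) = 0 := by noncomm_ring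
    rw [this, map_zero]

lemma kap4_even : Fixes (pr 1 (-LinearMap.id)) (kap4 (Q := Q) lam) := by
  intro v
  rw [kap4_apply, kap4_apply]
  simp [pr]

/-- all the elements `(0, Y)` are in the Lie algebra if one `(0, e_i ∧ e_j)` is -/
lemma lieA_wedge_all (b : Module.Basis I ℂ T) (hb : ONB Q b) (hA : IsMotivic A)
    {i j : I} (hij : i ≠ j) (h : LieA A 0 (wedge Q (b i) (b j))) :
    ∀ k l, LieA A 0 (wedge Q (b k) (b l)) := by
  have hw : ∀ i j, i ≠ j → LieA A (pairW Q (b i) (b j)) (wedge Q (b i) (b j)) :=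
    fun i j hij m f hf => (hA.1 m f hf).2 _ _ (isLiePair_wedge _ _ (hb.orth i j hij))
  have hsymm : ∀ k l, LieA A 0 (wedge Q (b k) (b l)) → LieA A 0 (wedge Q (b l) (b k)) := by
    intro k l h1
    have h2 := h1.smul (-1)
    have h3 : (-1 : ℂ) • wedge Q (b k) (b l) = wedge Q (b l) (b k) := by
      rw [wedge, wedge, neg_one_smul, neg_sub]
    rwa [smul_zero, h3] at h2
  -- change of the first index
  have hstep : ∀ i j k, i ≠ j → k ≠ i → k ≠ j → LieA A 0 (wedge Q (b i) (b j)) →
      LieA A 0 (wedge Q (b k) (b j)) := by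
    intro i j k hij hki hkj h1
    have h2 := (hw k i hki).bracket h1
    rw [mul_zero, zero_mul, sub_zero] at h2
    have h3 : wedge Q (b k) (b i) ∘ₗ wedge Q (b i) (b j) -
        wedge Q (b i) (b j) ∘ₗ wedge Q (b k) (b i) = (2 : ℂ) • wedge Q (b k) (b j) := by
      refine b.ext fun m => ?_
      simp only [LinearMap.sub_apply, LinearMap.comp_apply, wedge_apply, LinearMap.smul_apply,
        map_sub, map_smul, hb.polar_self, hb.orth i j hij, hb.orth k j hkj, hb.orth k i hki,
        hb.orth j i hij.symm, hb.orth j k (fun e => hkj e.symm), hb.orth i k (fun e => hki e.symm)]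
      module
    rw [h3] at h2
    have h4 := h2.smul (1 / 2)
    rw [smul_zero, smul_smul] at h4
    have h5 : (1 / 2 * 2 : ℂ) = 1 := by norm_num
    rwa [h5, one_smul] at h4
  have h0 : ∀ k, LieA A 0 (wedge Q (b k) (b k)) := by
    intro k
    have : wedge Q (b k) (b k) = 0 := by rw [wedge, sub_self]
    rw [this]; exact LieA.zero
  -- pairs containing `j`
  have hj : ∀ k, LieA A 0 (wedge Q (b k) (b j)) := by
    intro k
    by_cases h1 : k = i
    · rw [h1]; exact h
    by_cases h2 : k = j
    · rw [h2]; exact h0 j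
    exact hstep i j k hij h1 h2 h
  intro k l
  by_cases h1 : k = l
  · rw [h1]; exact h0 l
  by_cases h2 : l = j
  · rw [h2]; exact hj k
  -- from (j, l) to (k, l)
  have h3 : LieA A 0 (wedge Q (b j) (b l)) := hsymm l j (hj l)
  by_cases h4 : k = j
  · rw [h4]; exact h3
  exact hstep j l k (fun e => h2 e.symm) h4 h1 h3

/-- a skew map is a combination of the `e_i ∧ e_j` -/
lemma skew_eq_sum [Fintype I] (b : Module.Basis I ℂ T) (hb : ONB Q b) (Y : T →ₗ[ℂ] T)
    (hY : ∀ s, polar Q (Y s) s = 0) :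
    Y = ∑ i, ∑ j, ((1 / 4 : ℂ) * b.repr (Y (b j)) i) • wedge Q (b i) (b j) := by
  have hpol : ∀ v j, polar Q v (b j) = 2 * b.repr v j := by
    intro v j
    have h1 : (polarBilin Q).flip (b j) = (2 : ℂ) • b.coord j := by
      refine b.ext fun i => ?_
      show polar Q (b i) (b j) = (2 : ℂ) * b.coord j (b i)
      rw [Module.Basis.coord_apply, Module.Basis.repr_self, Finsupp.single_apply]
      split_ifs with h
      · rw [h, hb.polar_self, mul_one]
      · rw [hb.orth i j h, mul_zero]
    exact LinearMap.congr_fun h1 v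
  have hsk : ∀ s t, polar Q (Y s) t = - polar Q (Y t) s := by
    intro s t
    have h1 := hY (s + t)
    rw [map_add, polar_add_left, polar_add_right, polar_add_right, hY, hY, zero_add, add_zero] at h1
    linear_combination h1
  have hsk' : ∀ i j, b.repr (Y (b j)) i = - b.repr (Y (b i)) j := by
    intro i j
    have h1 := hsk (b j) (b i)
    rw [hpol, hpol] at h1
    linear_combination (1 / 2 : ℂ) * h1
  refine b.ext fun k => ?_
  rw [LinearMap.sum_apply]
  simp only [LinearMap.sum_apply, LinearMap.smul_apply, wedge_apply]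
  have hterm : ∀ i j, ((1 / 4 : ℂ) * b.repr (Y (b j)) i) •
      (polar Q (b j) (b k) • b i - polar Q (b i) (b k) • b j) =
      (if j = k then ((1 / 2 : ℂ) * b.repr (Y (b j)) i) • b i else 0) -
      (if i = k then ((1 / 2 : ℂ) * b.repr (Y (b j)) i) • b j else 0) := by
    intro i j
    by_cases h1 : j = k
    · by_cases h2 : i = k
      · rw [if_pos h1, if_pos h2, h1, h2, hb.polar_self]; module
      · rw [if_pos h1, if_neg h2, h1, hb.polar_self, hb.orth i k h2]; module
    · by_cases h2 : i = k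
      · rw [if_neg h1, if_pos h2, h2, hb.polar_self, hb.orth j k h1]; module
      · rw [if_neg h1, if_neg h2, hb.orth i k h2, hb.orth j k h1]; module
  simp only [hterm, Finset.sum_sub_distrib]
  rw [Finset.sum_comm (f := fun i j => if i = k then ((1 / 2 : ℂ) * b.repr (Y (b j)) i) • b j
    else 0)]
  simp only [Finset.sum_ite_eq', Finset.mem_univ, if_true]
  have h1 : ∀ j, ((1 / 2 : ℂ) * b.repr (Y (b j)) k) • b j =
      - (((1 / 2 : ℂ) * b.repr (Y (b k)) j) • b j) := by
    intro j; rw [hsk' k j]; module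
  simp only [h1, Finset.sum_neg_distrib, sub_neg_eq_add]
  rw [← Finset.sum_add_distrib]
  conv_lhs => rw [← b.sum_repr (Y (b k))]
  refine Finset.sum_congr rfl (fun i _ => ?_)
  module

lemma LieA.sum {α : Type*} (s : Finset α) (x : α → W Q) (Y : α → (T →ₗ[ℂ] T))
    (h : ∀ a ∈ s, LieA A (x a) (Y a)) : LieA A (∑ a ∈ s, x a) (∑ a ∈ s, Y a) := by
  classical
  induction s using Finset.induction_on with
  | empty => rw [Finset.sum_empty, Finset.sum_empty]; exact LieA.zero
  | insert a s ha ih =>
    rw [Finset.sum_insert ha, Finset.sum_insert ha]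
    exact (h a (Finset.mem_insert_self a s)).add
      (ih (fun c hc => h c (Finset.mem_insert_of_mem hc)))

lemma not_lieA_of_mixed [Fintype I] (b : Module.Basis I ℂ T) (hb : ONB Q b)
    (hA : IsMotivic A) (hM : IsMixed A) {i j : I} (hij : i ≠ j) :
    ¬ LieA A 0 (wedge Q (b i) (b j)) := by
  intro h
  obtain ⟨n, f, Y, hf, hY, hk⟩ := hM
  apply hk
  have h1 := lieA_wedge_all b hb hA hij h
  have h2 : LieA A 0 Y := by
    have h3 := LieA.sum (A := A) Finset.univ (fun _ : I => (0 : W Q))
      (fun i => ∑ j, ((1 / 4 : ℂ) * b.repr (Y (b j)) i) • wedge Q (b i) (b j)) (by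
        intro i _
        have h4 := LieA.sum (A := A) Finset.univ (fun _ : I => (0 : W Q))
          (fun j => ((1 / 4 : ℂ) * b.repr (Y (b j)) i) • wedge Q (b i) (b j)) (by
            intro j _
            have h5 := (h1 i j).smul ((1 / 4 : ℂ) * b.repr (Y (b j)) i)
            rwa [smul_zero] at h5)
        rwa [Finset.sum_const_zero] at h4)
    rw [Finset.sum_const_zero, ← skew_eq_sum b hb Y hY] at h3
    exact h3
  exact h2 n f hf

/-- the main theorem -/
theorem main [FiniteDimensional ℂ T]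
    (hQ : ∀ t : T, (∀ s : T, polar Q s t = 0) → t = 0)
    (hodd : Odd (Module.finrank ℂ T)) (h3 : 3 ≤ Module.finrank ℂ T) (hA : IsMotivic A) :
    [HasLink A, ∃ κ : Form Q 3, IsKugaSatake κ ∧ κ ∈ A 3,
      ∀ κ : Form Q 3, IsKugaSatake κ → κ ∈ A 3,
      ∀ (n : ℕ) (f : Form Q n), IsHodge f → f ∈ A n].TFAE ∧
    (IsMixed A ↔ ∀ (n : ℕ) (f : Form Q n), IsHodge f → Fixes (pr 1 (-LinearMap.id)) f → f ∈ A n) := by
  obtain ⟨b, hb⟩ := exists_onb hQ
  have hI : Odd (Fintype.card (Fin (Module.finrank ℂ T))) := by rwa [Fintype.card_fin]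
  have hI2 : 2 ≤ Fintype.card (Fin (Module.finrank ℂ T)) := by rw [Fintype.card_fin]; omega
  refine ⟨?_, ?_, ?_⟩
  · tfae_have 1 → 4 := by
      intro hL n f hf
      apply hA.2.2.2
      intro g hg
      obtain ⟨x, t, hgx, hs⟩ := stab_spin hI hI2 b hb hA hQ hL hg
      rw [hgx]
      exact hf.1 x t hs
    tfae_have 4 → 3 := fun h κ hκ => h 3 κ (kap_hodge hκ)
    tfae_have 3 → 2 := by
      intro h
      obtain ⟨κ, hκ⟩ := exists_ks b hb ⟨0, by omega⟩
      exact ⟨κ, hκ, h κ hκ⟩
    tfae_have 2 → 1 := by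
      rintro ⟨κ, hκ, hκA⟩
      obtain ⟨w, t, hwt⟩ := ks_link κ hκ
      exact ⟨3, κ, 1, w, t, hκA, hwt⟩
    tfae_finish
  · intro hM n f hf hev
    apply hA.2.2.2
    intro g hg
    have hNN : NN A = ⊥ :=
      NN_eq_bot hI b hb hA (fun i j hij => not_lieA_of_mixed b hb hA hM hij)
    obtain ⟨x, t, hgx, hx, hx', ht⟩ := stab_structure hA hQ hg
    rw [hgx]
    rcases stab_sign hI hI2 b hb hA hNN hg hgx hx hx' ht with h | h
    · exact hf.1 x t h
    · intro v
      have e1 := hf.1 x (-t) h v
      rw [← e1, ← hev (fun i => pr x (-t) (v i))]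
      congr 1
      funext i
      refine Prod.ext ?_ ?_
      · show x * (v i).1 = 1 * (x * (v i).1)
        rw [one_mul]
      · show t (v i).2 = - (- t (v i).2)
        rw [neg_neg]
  · intro h
    let i0 : Fin (Module.finrank ℂ T) := ⟨0, by omega⟩
    let i1 : Fin (Module.finrank ℂ T) := ⟨1, by omega⟩
    let i2 : Fin (Module.finrank ℂ T) := ⟨2, by omega⟩
    have h01 : i0 ≠ i1 := by simp [i0, i1]
    have h02 : i0 ≠ i2 := by simp [i0, i2]
    have h12 : i1 ≠ i2 := by simp [i1, i2]
    have : Invertible (2 : ℂ) := invertibleOfNonzero two_ne_zero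
    have hne : ι Q (b i0) * ι Q (b i2) ≠ 0 := by
      intro h3
      have h4 : ι Q (b i0) * (ι Q (b i0) * ι Q (b i2)) * ι Q (b i2) = 1 := by
        have e1 : ι Q (b i0) * ι Q (b i0) = 1 := hb.anti.sq i0
        have e2 : ι Q (b i2) * ι Q (b i2) = 1 := hb.anti.sq i2
        rw [← mul_assoc, e1, one_mul, e2]
      rw [h3, mul_zero, zero_mul] at h4
      exact zero_ne_one h4
    obtain ⟨lam, hlam⟩ : ∃ μ : CliffordAlgebra Q →ₗ[ℂ] ℂ, μ (ι Q (b i0) * ι Q (b i2)) ≠ 0 := by
      by_contra hcon
      push Not at hcon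
      exact hne ((Module.forall_dual_apply_eq_zero_iff ℂ _).mp hcon)
    refine ⟨4, kap4 lam, wedge Q (b i0) (b i1), h 4 _ kap4_hodge kap4_even, ?_, ?_⟩
    · intro s
      rw [wedge_apply, sub_eq_add_neg, polar_add_left, polar_neg_left, polar_smul_left,
        polar_smul_left, smul_eq_mul, smul_eq_mul]
      ring
    · intro hk
      apply hlam
      have h1 := hk ![(1, 0), (0, b i1), (0, b i2), (1, 0)]
      rw [Fin.sum_univ_four] at h1
      simp only [kap4_apply] at h1
      have e01 : (0 : Fin 4) ≠ 1 := by decide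
      have e02 : (0 : Fin 4) ≠ 2 := by decide
      have e03 : (0 : Fin 4) ≠ 3 := by decide
      have e12 : (1 : Fin 4) ≠ 2 := by decide
      have e13 : (1 : Fin 4) ≠ 3 := by decide
      have e23 : (2 : Fin 4) ≠ 3 := by decide
      simp only [Function.update_self, Function.update_of_ne e01, Function.update_of_ne e01.symm,
        Function.update_of_ne e02, Function.update_of_ne e02.symm, Function.update_of_ne e12,
        Function.update_of_ne e12.symm, Function.update_of_ne e03, Function.update_of_ne e03.symm,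
        Function.update_of_ne e13, Function.update_of_ne e13.symm, Function.update_of_ne e23,
        Function.update_of_ne e23.symm, pr, LinearMap.prodMap_apply, LinearMap.mulLeft_apply,
        zero_mul, ZeroMemClass.coe_zero, map_zero, wedge_apply, Matrix.cons_val_zero,
        Matrix.cons_val_one, Matrix.cons_val, mul_zero, add_zero, zero_add, hb.polar_self,
        hb.orth i0 i1 h01, hb.orth i1 i2 h12, hb.orth i0 i2 h02, zero_smul, sub_zero, map_smul,
        OneMemClass.coe_one, mul_one, smul_mul_assoc, mul_smul_comm, sub_self, one_mul,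
        reverse.map_one] at h1
      exact (smul_eq_zero.mp h1).resolve_left two_ne_zero

end Pool.Agent.K1H14.KS
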