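import Pool.Agent.K1H14.KS.Defs

/-!
# The central torus, for even rank
-/

namespace Pool.Agent.K1H14.KS

open CliffordAlgebra

variable {T : Type*} [AddCommGroup T] [Module ℂ T]

/-- `s` is central in the even Clifford algebra, and `s* s = 1`.  (For `dim T` two modulo four the
centre of the even Clifford algebra is `ℂ × ℂ`, the involution `*` exchanges the two factors, and
these elements form a torus of dimension one.) -/
def IsCentralNormOne {Q : QuadraticForm ℂ T} (s : W Q) : Prop :=
  (∀ w : W Q, s * w = w * s) ∧ reverse (s : CliffordAlgebra Q) * (s : CliffordAlgebra Q) = 1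

/-- `f` is *balanced*: it is invariant under the central elements `s` of norm one, acting on
`H¹(KS(X), ℂ)` by multiplication, and trivially on `T`. -/
def IsBalanced {Q : QuadraticForm ℂ T} {n : ℕ} (f : Form Q n) : Prop :=
  ∀ s : W Q, IsCentralNormOne s → Fixes (pr s LinearMap.id) f

/-- `f` is invariant under the central elements `s` of norm one with `s ^ m = 1` (the `m`-torsion
points of the torus). -/
def IsTorsionInvariant {Q : QuadraticForm ℂ T} {n : ℕ} (m : ℕ) (f : Form Q n) : Prop :=
  ∀ s : W Q, IsCentralNormOne s → s ^ m = 1 → Fixes (pr s LinearMap.id) f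

end Pool.Agent.K1H14.KS
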