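import Mathlib

/-!
# Monomials in anticommuting involutions

`E : I → R`, with `E i * E i = 1` and `E i * E j = - (E j * E i)` for `i ≠ j`, in a complex
algebra `R`, with `I` finite of odd cardinality.
-/

namespace Pool.Agent.K1H14.KS

variable {R : Type*} [Ring R] [Algebra ℂ R] {I : Type*} [DecidableEq I]

/-- anticommuting involutions -/
structure Anti (E : I → R) : Prop where
  sq : ∀ i, E i * E i = 1
  anti : ∀ i j, i ≠ j → E i * E j = - (E j * E i)

/-- monomials -/
def mono (E : I → R) (l : List I) : R := (l.map E).prod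

/-- signs -/
def sg (j : I) (l : List I) : ℂ := (l.map (fun a => if a = j then (1 : ℂ) else -1)).prod

@[simp] lemma mono_nil (E : I → R) : mono E [] = 1 := rfl
@[simp] lemma mono_cons (E : I → R) (a : I) (l : List I) :
    mono E (a :: l) = E a * mono E l := by simp [mono]
lemma mono_append (E : I → R) (l l' : List I) :
    mono E (l ++ l') = mono E l * mono E l' := by simp [mono]
@[simp] lemma sg_nil (j : I) : sg j [] = 1 := rfl
@[simp] lemma sg_cons (j a : I) (l : List I) :
    sg j (a :: l) = (if a = j then (1 : ℂ) else -1) * sg j l := by simp [sg]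
lemma sg_append (j : I) (l l' : List I) : sg j (l ++ l') = sg j l * sg j l' := by simp [sg]

lemma sg_or (j : I) (l : List I) : sg j l = 1 ∨ sg j l = -1 := by
  induction l with
  | nil => left; simp
  | cons a l ih =>
    rw [sg_cons]
    split_ifs <;> rcases ih with h | h <;> rw [h] <;> simp

lemma sg_sq (j : I) (l : List I) : sg j l * sg j l = 1 := by
  rcases sg_or j l with h | h <;> rw [h] <;> simp

lemma sg_notMem (j : I) (l : List I) (h : j ∉ l) : sg j l = (-1) ^ l.length := by
  induction l with
  | nil => simp
  | cons a l ih =>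
    rw [List.mem_cons, not_or] at h
    rw [sg_cons, ih h.2, if_neg (fun e => h.1 e.symm), List.length_cons, pow_succ]
    ring

variable {E : I → R}

lemma mono_mul_E (hE : Anti E) (j : I) (l : List I) :
    mono E l * E j = sg j l • (E j * mono E l) := by
  induction l with
  | nil => simp
  | cons a l ih =>
    rw [mono_cons, sg_cons, mul_assoc, ih]
    split_ifs with h
    · subst h
      rw [one_mul, mul_smul_comm]
    · rw [mul_smul_comm, ← mul_assoc, hE.anti a j h, neg_mul, smul_neg, neg_one_mul, neg_smul,
        mul_assoc]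

lemma conj_mono (hE : Anti E) (j : I) (l : List I) :
    E j * mono E l * E j = sg j l • mono E l := by
  rw [mul_assoc, mono_mul_E hE, mul_smul_comm, ← mul_assoc, hE.sq, one_mul]

lemma even_mono_or (hE : Anti E) : ∀ (N : ℕ) (l : List I), l.length = N → Even l.length →
    (∃ c : ℂ, mono E l = c • (1 : R)) ∨ ∃ i, sg i l = -1 := by
  intro N
  induction N using Nat.strong_induction_on with
  | _ N ih =>
    intro l hl he
    cases l with
    | nil => left; exact ⟨1, by simp⟩
    | cons a l =>
      by_cases ha : a ∈ l
      · obtain ⟨s, t, rfl⟩ := List.append_of_mem ha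
        have hlen : (s ++ t).length + 2 = (a :: (s ++ a :: t)).length := by
          simp; omega
        have he' : Even (s ++ t).length := by
          rw [← hlen] at he
          exact (Nat.even_add.mp he).mpr (by decide)
        have hm : mono E (a :: (s ++ a :: t)) = sg a s • mono E (s ++ t) := by
          rw [mono_cons, mono_append, mono_cons, ← mul_assoc, ← mul_assoc, conj_mono hE,
            smul_mul_assoc, mono_append]
        have hs : ∀ i, sg i (a :: (s ++ a :: t)) = sg i (s ++ t) := by
          intro i
          rw [sg_cons, sg_append, sg_cons, sg_append]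
          split_ifs <;> ring
        rcases ih (s ++ t).length (by omega) (s ++ t) rfl he' with ⟨c, hc⟩ | ⟨i, hi⟩
        · left; exact ⟨sg a s * c, by rw [hm, hc, smul_smul]⟩
        · right; exact ⟨i, by rw [hs, hi]⟩
      · right
        refine ⟨a, ?_⟩
        rw [sg_cons, if_pos rfl, one_mul, sg_notMem a l ha]
        apply Odd.neg_one_pow
        rw [List.length_cons] at he
        exact Nat.not_even_iff_odd.mp (Nat.even_add_one.mp he)

lemma prod_sg [Fintype I] (hI : Odd (Fintype.card I)) (l : List I) : ∏ j, sg j l = 1 := by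
  induction l with
  | nil => simp
  | cons a l ih =>
    simp_rw [sg_cons]
    rw [Finset.prod_mul_distrib, ih, mul_one, ← Finset.mul_prod_erase _ _ (Finset.mem_univ a),
      if_pos rfl, one_mul]
    rw [Finset.prod_congr rfl (g := fun _ => (-1 : ℂ)) (fun j hj => by
      rw [if_neg (fun e => (Finset.ne_of_mem_erase hj) e.symm)])]
    rw [Finset.prod_const, Finset.card_erase_of_mem (Finset.mem_univ a), Finset.card_univ]
    apply Even.neg_one_pow
    obtain ⟨k, hk⟩ := hI
    exact ⟨k, by omega⟩

lemma even_mono_or' [Fintype I] (hI : Odd (Fintype.card I)) (hE : Anti E) (l : List I)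
    (hl : Even l.length) :
    (∃ c : ℂ, mono E l = c • (1 : R)) ∨ ∃ i j, sg i l * sg j l = -1 := by
  rcases even_mono_or hE _ l rfl hl with h | ⟨i, hi⟩
  · exact Or.inl h
  · right
    by_contra hcon
    push Not at hcon
    have hall : ∀ j, sg j l = -1 := by
      intro j
      rcases sg_or j l with h | h
      · exact absurd (by rw [hi, h]; ring) (hcon i j)
      · exact h
    have := prod_sg hI l
    rw [Finset.prod_congr rfl (g := fun _ => (-1 : ℂ)) (fun j _ => hall j), Finset.prod_const,
      Finset.card_univ, Odd.neg_one_pow hI] at this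
    norm_num at this

/-- the span of the even monomials -/
def Sev (E : I → R) : Submodule ℂ R := Submodule.span ℂ {x | ∃ l : List I, Even l.length ∧ x = mono E l}

/-- conjugation by `E i₀ E j` -/
def al (E : I → R) (i₀ j : I) : R →ₗ[ℂ] R :=
  (LinearMap.mulLeft ℂ (E i₀ * E j)) ∘ₗ (LinearMap.mulRight ℂ (E j * E i₀))

lemma al_apply (i₀ j : I) (x : R) : al E i₀ j x = E i₀ * E j * (x * (E j * E i₀)) := rfl

lemma al_mono (hE : Anti E) (i₀ j : I) (l : List I) :
    al E i₀ j (mono E l) = (sg j l * sg i₀ l) • mono E l := by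
  rw [al_apply]
  calc E i₀ * E j * (mono E l * (E j * E i₀)) = E i₀ * (E j * mono E l * E j) * E i₀ := by
        simp only [mul_assoc]
    _ = _ := by
        rw [conj_mono hE, mul_smul_comm, smul_mul_assoc, conj_mono hE, smul_smul]

/-- the projector on a sign pattern (times a power of 2) -/
def Pr (E : I → R) (i₀ : I) (ε : I → ℂ) : List I → (R →ₗ[ℂ] R)
  | [] => LinearMap.id
  | j :: L => (LinearMap.id + ε j • al E i₀ j) ∘ₗ Pr E i₀ ε L

lemma Pr_mono (hE : Anti E) (i₀ : I) (ε : I → ℂ) (L : List I) (l : List I) :
    Pr E i₀ ε L (mono E l) = (L.map fun j => 1 + ε j * (sg j l * sg i₀ l)).prod • mono E l := by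
  induction L with
  | nil => simp [Pr]
  | cons j L ih =>
    simp only [Pr, LinearMap.comp_apply, ih, map_smul, LinearMap.add_apply, LinearMap.id_apply,
      LinearMap.smul_apply, al_mono hE, List.map_cons, List.prod_cons]
    module

lemma Pr_eig (i₀ : I) (ε : I → ℂ) (hε : ∀ j, ε j * ε j = 1) (L : List I) (x : R)
    (hx : ∀ j, al E i₀ j x = ε j • x) : Pr E i₀ ε L x = (2 : ℂ) ^ L.length • x := by
  induction L with
  | nil => simp [Pr]
  | cons j L ih =>
    simp only [Pr, LinearMap.comp_apply, ih, map_smul, LinearMap.add_apply, LinearMap.id_apply,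
      LinearMap.smul_apply, hx, smul_smul, hε, List.length_cons, pow_succ]
    module

/-- an element of the even span with a given sign pattern lies in the span of the even monomials
with this pattern -/
lemma mem_pattern [Fintype I] (hE : Anti E) (i₀ : I) (ε : I → ℂ)
    (hε : ∀ j, ε j = 1 ∨ ε j = -1) (x : R) (hxS : x ∈ Sev E)
    (hx : ∀ j, al E i₀ j x = ε j • x) :
    x ∈ Submodule.span ℂ {y | ∃ l : List I, Even l.length ∧
      (∀ j, sg j l * sg i₀ l = ε j) ∧ y = mono E l} := by
  have hε2 : ∀ j, ε j * ε j = 1 := fun j => by rcases hε j with h | h <;> rw [h] <;> norm_num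
  have h1 := Pr_eig i₀ ε hε2 (Finset.univ.toList) x hx
  have h2 : ∀ y ∈ Sev E, Pr E i₀ ε (Finset.univ.toList) y ∈
      Submodule.span ℂ {y | ∃ l : List I, Even l.length ∧
      (∀ j, sg j l * sg i₀ l = ε j) ∧ y = mono E l} := by
    intro y hy
    induction hy using Submodule.span_induction with
    | mem y hy =>
      obtain ⟨l, hl, rfl⟩ := hy
      rw [Pr_mono hE]
      by_cases hp : ∀ j, sg j l * sg i₀ l = ε j
      · exact Submodule.smul_mem _ _ (Submodule.subset_span ⟨l, hl, hp, rfl⟩)
      · push Not at hp
        obtain ⟨j, hj⟩ := hp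
        have h0 : 1 + ε j * (sg j l * sg i₀ l) = 0 := by
          rcases hε j with h | h <;> rcases sg_or j l with h' | h' <;>
            rcases sg_or i₀ l with h'' | h'' <;> rw [h, h', h''] at hj <;> norm_num at hj <;>
            rw [h, h', h''] <;> norm_num
        rw [List.prod_eq_zero, zero_smul]
        · exact Submodule.zero_mem _
        · rw [List.mem_map]
          exact ⟨j, Finset.mem_toList.mpr (Finset.mem_univ j), h0⟩
    | zero => rw [map_zero]; exact Submodule.zero_mem _
    | add y z _ _ hy hz => rw [map_add]; exact Submodule.add_mem _ hy hz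
    | smul c y _ hy => rw [map_smul]; exact Submodule.smul_mem _ _ hy
  have h3 := h2 x hxS
  rw [h1] at h3
  exact (Submodule.smul_mem_iff _ (pow_ne_zero _ two_ne_zero)).mp h3

/-- an even element which commutes with all `E i * E j` is a scalar -/
lemma scalar_of_commute [Fintype I] (hI : Odd (Fintype.card I)) (hE : Anti E) (x : R)
    (hxS : x ∈ Sev E) (hx : ∀ i j, i ≠ j → E i * E j * x = x * (E i * E j)) :
    ∃ c : ℂ, x = c • (1 : R) := by
  obtain ⟨i₀⟩ : Nonempty I := by
    rw [← Fintype.card_pos_iff]; exact hI.pos
  have h1 : ∀ j, al E i₀ j x = (fun _ => (1 : ℂ)) j • x := by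
    intro j
    rw [al_apply, one_smul]
    by_cases h : j = i₀
    · subst h; rw [hE.sq, one_mul, mul_one]
    · rw [← mul_assoc, hx i₀ j (fun e => h e.symm), mul_assoc]
      have : E i₀ * E j * (E j * E i₀) = 1 := by
        rw [mul_assoc, ← mul_assoc (E j), hE.sq, one_mul, hE.sq]
      rw [this, mul_one]
  have h2 := mem_pattern hE i₀ (fun _ => 1) (fun _ => Or.inl rfl) x hxS h1
  have h3 : Submodule.span ℂ {y | ∃ l : List I, Even l.length ∧
      (∀ j, sg j l * sg i₀ l = (fun _ => (1 : ℂ)) j) ∧ y = mono E l} ≤
      Submodule.span ℂ {(1 : R)} := by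
    rw [Submodule.span_le]
    rintro y ⟨l, hl, hp, rfl⟩
    rcases even_mono_or' hI hE l hl with ⟨c, hc⟩ | ⟨i, j, hij⟩
    · rw [hc]; exact Submodule.smul_mem _ _ (Submodule.mem_span_singleton_self _)
    · exfalso
      have hi := hp i
      have hj := hp j
      have hs := sg_sq i₀ l
      simp only at hi hj
      have : sg i l * sg j l = 1 := by
        calc sg i l * sg j l = (sg i l * sg i₀ l) * (sg j l * sg i₀ l) := by
              linear_combination (- sg i l * sg j l) * hs
          _ = 1 := by rw [hi, hj]; ring
      rw [this] at hij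
      norm_num at hij
  obtain ⟨c, hc⟩ := Submodule.mem_span_singleton.mp (h3 h2)
  exact ⟨c, hc.symm⟩

lemma mono_mul_reverse (hE : Anti E) (l : List I) : mono E l * mono E l.reverse = 1 := by
  induction l with
  | nil => simp
  | cons a l ih =>
    rw [List.reverse_cons, mono_append, mono_cons, mono_cons, mono_nil, mul_one]
    calc E a * mono E l * (mono E l.reverse * E a) = E a * (mono E l * mono E l.reverse) * E a := by
          simp only [mul_assoc]
      _ = 1 := by rw [ih, mul_one, hE.sq]

lemma reverse_mul_mono (hE : Anti E) (l : List I) : mono E l.reverse * mono E l = 1 := by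
  have := mono_mul_reverse hE l.reverse
  rwa [List.reverse_reverse] at this

lemma al_al_self (hE : Anti E) (i₀ j : I) (x : R) (hx : x ∈ Sev E) :
    al E i₀ j (al E i₀ j x) = x := by
  induction hx using Submodule.span_induction with
  | mem y hy =>
    obtain ⟨l, hl, rfl⟩ := hy
    rw [al_mono hE, map_smul, al_mono hE, smul_smul]
    have : sg j l * sg i₀ l * (sg j l * sg i₀ l) = 1 := by
      linear_combination (sg i₀ l * sg i₀ l) * sg_sq j l + sg_sq i₀ l
    rw [this, one_smul]
  | zero => simp
  | add y z _ _ hy hz => rw [map_add, map_add, hy, hz]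
  | smul c y _ hy => rw [map_smul, map_smul, hy]

lemma al_comm (hE : Anti E) (i₀ j k : I) (x : R) (hx : x ∈ Sev E) :
    al E i₀ j (al E i₀ k x) = al E i₀ k (al E i₀ j x) := by
  induction hx using Submodule.span_induction with
  | mem y hy =>
    obtain ⟨l, hl, rfl⟩ := hy
    rw [al_mono hE, map_smul, al_mono hE, map_smul, al_mono hE, smul_smul, smul_smul,
      mul_comm]
  | zero => simp
  | add y z _ _ hy hz => simp only [map_add, hy, hz]
  | smul c y _ hy => simp only [map_smul, hy]

/-- a nonzero subspace of the even span stable under the conjugations `al` contains an even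
monomial -/
lemma exists_mono_mem [Fintype I] (hI : Odd (Fintype.card I)) (hE : Anti E) (i₀ : I)
    (N : Submodule ℂ R) (hN : N ≤ Sev E) (hst : ∀ j, ∀ x ∈ N, al E i₀ j x ∈ N)
    (y : R) (hy : y ∈ N) (hy0 : y ≠ 0) : ∃ l : List I, Even l.length ∧ mono E l ∈ N := by
  have key : ∀ L : List I, ∃ y ∈ N, y ≠ 0 ∧ ∀ j ∈ L, ∃ ε : ℂ, (ε = 1 ∨ ε = -1) ∧
      al E i₀ j y = ε • y := by
    intro L
    induction L with
    | nil => exact ⟨y, hy, hy0, by simp⟩
    | cons j L ih =>
      obtain ⟨z, hz, hz0, hzL⟩ := ih
      by_cases h : z + al E i₀ j z = 0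
      · refine ⟨z, hz, hz0, ?_⟩
        intro k hk
        rcases List.mem_cons.mp hk with rfl | hk
        · exact ⟨-1, Or.inr rfl, by rw [neg_one_smul]; exact (neg_eq_of_add_eq_zero_right h).symm⟩
        · exact hzL k hk
      · refine ⟨z + al E i₀ j z, N.add_mem hz (hst j z hz), h, ?_⟩
        intro k hk
        rcases List.mem_cons.mp hk with rfl | hk
        · exact ⟨1, Or.inl rfl, by rw [map_add, al_al_self hE i₀ k z (hN hz), one_smul, add_comm]⟩
        · obtain ⟨ε, hε, h1⟩ := hzL k hk
          exact ⟨ε, hε, by rw [map_add, al_comm hE i₀ k j z (hN hz), h1, map_smul, smul_add]⟩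
  obtain ⟨z, hz, hz0, hzL⟩ := key Finset.univ.toList
  choose! ε hε h1 using hzL
  have hz' := mem_pattern hE i₀ ε (fun j => hε j (Finset.mem_toList.mpr (Finset.mem_univ j))) z
    (hN hz) (fun j => h1 j (Finset.mem_toList.mpr (Finset.mem_univ j)))
  -- there is a monomial with this pattern
  obtain ⟨l, hl, hp⟩ : ∃ l : List I, Even l.length ∧ ∀ j, sg j l * sg i₀ l = ε j := by
    by_contra hcon
    push Not at hcon
    have : {y | ∃ l : List I, Even l.length ∧
      (∀ j, sg j l * sg i₀ l = ε j) ∧ y = mono E l} = ∅ := by
      ext y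
      rw [Set.mem_empty_iff_false, iff_false]
      rintro ⟨l, hl, hp, -⟩
      obtain ⟨j, hj⟩ := hcon l hl
      exact hj (hp j)
    rw [this, Submodule.span_empty, Submodule.mem_bot] at hz'
    exact hz0 hz'
  refine ⟨l, hl, ?_⟩
  have hle : Submodule.span ℂ {y | ∃ l : List I, Even l.length ∧
      (∀ j, sg j l * sg i₀ l = ε j) ∧ y = mono E l} ≤ Submodule.span ℂ {mono E l} := by
    rw [Submodule.span_le]
    rintro y ⟨l', hl', hp', rfl⟩
    have hev : Even (l.reverse ++ l').length := by
      rw [List.length_append, List.length_reverse]; exact hl.add hl'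
    have hev2 : Even (l ++ l').length := by
      rw [List.length_append]; exact hl.add hl'
    have hsr : ∀ j, sg j l.reverse = sg j l := by
      intro j
      rw [sg, sg, List.map_reverse, List.prod_reverse]
    rcases even_mono_or' hI hE (l.reverse ++ l') hev with ⟨c, hc⟩ | ⟨i, j, hij⟩
    · rw [SetLike.mem_coe, Submodule.mem_span_singleton]
      refine ⟨c, ?_⟩
      rw [mono_append] at hc
      calc c • mono E l = mono E l * (c • 1) := by rw [mul_smul_comm, mul_one]
        _ = mono E l * (mono E l.reverse * mono E l') := by rw [hc]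
        _ = mono E l' := by rw [← mul_assoc, mono_mul_reverse hE, one_mul]
    · exfalso
      rw [sg_append, sg_append, hsr, hsr] at hij
      have e1 := hp i
      have e2 := hp' i
      have e3 := hp j
      have e4 := hp' j
      have a1 := sg_sq i₀ l
      have a2 := sg_sq i₀ l'
      have b1 := sg_sq i l
      have : sg i l * sg i l' * (sg j l * sg j l') = 1 := by
        have h5 : ε i * ε i = 1 := by
          rcases hε i (Finset.mem_toList.mpr (Finset.mem_univ i)) with h | h <;> rw [h] <;> norm_num
        have h6 : ε j * ε j = 1 := by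
          rcases hε j (Finset.mem_toList.mpr (Finset.mem_univ j)) with h | h <;> rw [h] <;> norm_num
        calc sg i l * sg i l' * (sg j l * sg j l')
            = (sg i l * sg i₀ l) * (sg i l' * sg i₀ l') * ((sg j l * sg i₀ l) * (sg j l' * sg i₀ l'))
              := by
              linear_combination (- sg i l * sg i l' * (sg j l * sg j l')) * a1 +
                (- sg i l * sg i l' * (sg j l * sg j l') * (sg i₀ l * sg i₀ l)) * a2
          _ = 1 := by rw [e1, e2, e3, e4, h5, h6, one_mul]
      rw [this] at hij
      norm_num at hij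
  obtain ⟨c, hc⟩ := Submodule.mem_span_singleton.mp (hle hz')
  have hc0 : c ≠ 0 := by
    rintro rfl
    rw [zero_smul] at hc
    exact hz0 hc.symm
  have : c • mono E l ∈ N := by rw [hc]; exact hz
  exact (Submodule.smul_mem_iff _ hc0).mp this

end Pool.Agent.K1H14.KS
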