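import Pool.Agent.K1H14.KS.Defs
import Pool.Agent.K1H14.KS.Mono

namespace Pool.Agent.K1H14.KS

section gen

variable {V : Type*} [AddCommGroup V] [Module ℂ V] {n : ℕ}
  {f : MultilinearMap ℂ (fun _ : Fin n => V) ℂ}

lemma Kills.add {D D' : V →ₗ[ℂ] V} (h : Kills D f) (h' : Kills D' f) : Kills (D + D') f := by
  intro v
  simp only [LinearMap.add_apply, MultilinearMap.map_update_add, Finset.sum_add_distrib]
  rw [h v, h' v, add_zero]

lemma Kills.smul {D : V →ₗ[ℂ] V} (c : ℂ) (h : Kills D f) : Kills (c • D) f := by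
  intro v
  simp only [LinearMap.smul_apply, MultilinearMap.map_update_smul, ← Finset.smul_sum]
  rw [h v, smul_zero]

lemma Kills.bracket {D D' : V →ₗ[ℂ] V} (h : Kills D f) (h' : Kills D' f) :
    Kills (D ∘ₗ D' - D' ∘ₗ D) f := by
  intro v
  have e1 : ∑ i, ∑ j, f (Function.update (Function.update v i (D' (v i))) j
      (D (Function.update v i (D' (v i)) j))) = 0 :=
    Finset.sum_eq_zero (fun i _ => h _)
  have e2 : ∑ i, ∑ j, f (Function.update (Function.update v i (D (v i))) j
      (D' (Function.update v i (D (v i)) j))) = 0 :=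
    Finset.sum_eq_zero (fun i _ => h' _)
  rw [Finset.sum_comm] at e2
  have e3 : ∑ i, f (Function.update v i ((D ∘ₗ D' - D' ∘ₗ D) (v i))) =
      ∑ i, ∑ j, (f (Function.update (Function.update v i (D' (v i))) j
      (D (Function.update v i (D' (v i)) j))) -
      f (Function.update (Function.update v j (D (v j))) i
      (D' (Function.update v j (D (v j)) i)))) := by
    refine Finset.sum_congr rfl (fun i _ => ?_)
    rw [Finset.sum_eq_single i]
    · simp only [Function.update_self, Function.update_idem, LinearMap.sub_apply,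
        LinearMap.comp_apply, MultilinearMap.map_update_sub]
    · intro j _ hj
      rw [Function.update_of_ne hj, Function.update_of_ne hj.symm, Function.update_comm hj,
        sub_self]
    · intro h; exact absurd (Finset.mem_univ i) h
  rw [e3]
  simp only [Finset.sum_sub_distrib]
  rw [e1, e2, sub_zero]

lemma Fixes.symm {g : V ≃ₗ[ℂ] V} (h : Fixes (g : V →ₗ[ℂ] V) f) :
    Fixes (g.symm : V →ₗ[ℂ] V) f := by
  intro v
  have := h (fun i => g.symm (v i))
  simpa using this.symm

lemma Kills.conj {D : V →ₗ[ℂ] V} (h : Kills D f) {g : V ≃ₗ[ℂ] V}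
    (hg : Fixes (g : V →ₗ[ℂ] V) f) :
    Kills ((g : V →ₗ[ℂ] V) ∘ₗ D ∘ₗ (g.symm : V →ₗ[ℂ] V)) f := by
  intro v
  have h1 := h (fun i => g.symm (v i))
  rw [← h1]
  refine Finset.sum_congr rfl (fun i _ => ?_)
  rw [← hg (Function.update (fun i => g.symm (v i)) i (D (g.symm (v i))))]
  congr 1
  ext j
  by_cases hj : j = i
  · subst hj; simp
  · simp [Function.update_of_ne hj]

end gen

end Pool.Agent.K1H14.KS
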