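import Pool.Agent.K1H14.KS.Lie

namespace Pool.Agent.K1H14.KS

open CliffordAlgebra QuadraticMap

variable {T : Type*} [AddCommGroup T] [Module ℂ T] {Q : QuadraticForm ℂ T}
  {I : Type*} [DecidableEq I]

/-- `b` is an orthonormal basis -/
structure ONB (Q : QuadraticForm ℂ T) (b : Module.Basis I ℂ T) : Prop where
  sq : ∀ i, Q (b i) = 1
  orth : ∀ i j, i ≠ j → polar Q (b i) (b j) = 0

lemma ONB.polar_self {b : Module.Basis I ℂ T} (hb : ONB Q b) (i : I) :
    polar Q (b i) (b i) = 2 := by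
  rw [QuadraticMap.polar_self, hb.sq]; norm_num

lemma ONB.anti {b : Module.Basis I ℂ T} (hb : ONB Q b) : Anti (fun i => ι Q (b i)) where
  sq i := by
    show ι Q (b i) * ι Q (b i) = 1
    rw [ι_sq_scalar, hb.sq, map_one]
  anti i j hij := by
    show ι Q (b i) * ι Q (b j) = - (ι Q (b j) * ι Q (b i))
    rw [eq_neg_iff_add_eq_zero, ι_mul_ι_add_swap, hb.orth i j hij, map_zero]

lemma mono_mem (b : Module.Basis I ℂ T) (l : List I) :
    mono (fun i => ι Q (b i)) l ∈ evenOdd Q (l.length : ZMod 2) := by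
  induction l with
  | nil =>
    rw [mono_nil]
    exact one_le_evenOdd_zero Q (Submodule.one_le.mp le_rfl)
  | cons a l ih =>
    rw [mono_cons, List.length_cons, Nat.cast_add, Nat.cast_one, add_comm]
    exact SetLike.mul_mem_graded (ι_mem_evenOdd_one Q (b a)) ih

lemma pair_mem {b : Module.Basis I ℂ T} (u v : T) (x : CliffordAlgebra Q)
    (hx : x ∈ Sev (fun i => ι Q (b i))) : ι Q u * ι Q v * x ∈ Sev (fun i => ι Q (b i)) := by
  have hu : u ∈ Submodule.span ℂ (Set.range b) := by rw [b.span_eq]; trivial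
  have hv : v ∈ Submodule.span ℂ (Set.range b) := by rw [b.span_eq]; trivial
  induction hx using Submodule.span_induction with
  | mem y hy =>
    obtain ⟨l, hl, rfl⟩ := hy
    induction hu using Submodule.span_induction with
    | mem u hu =>
      obtain ⟨i, rfl⟩ := hu
      induction hv using Submodule.span_induction with
      | mem v hv =>
        obtain ⟨j, rfl⟩ := hv
        refine Submodule.subset_span ⟨i :: j :: l, ?_, ?_⟩
        · rw [List.length_cons, List.length_cons, add_assoc]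
          exact hl.add (by decide)
        · rw [mono_cons, mono_cons, mul_assoc]
      | zero => simp
      | add v v' _ _ hv hv' =>
        rw [map_add, mul_add, add_mul]; exact Submodule.add_mem _ hv hv'
      | smul c v _ hv =>
        rw [map_smul, mul_smul_comm, smul_mul_assoc]; exact Submodule.smul_mem _ _ hv
    | zero => simp
    | add v v' _ _ hv hv' =>
      rw [map_add, add_mul, add_mul]; exact Submodule.add_mem _ hv hv'
    | smul c v _ hv =>
      rw [map_smul, smul_mul_assoc, smul_mul_assoc]; exact Submodule.smul_mem _ _ hv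
  | zero => simp
  | add y z _ _ hy hz => rw [mul_add]; exact Submodule.add_mem _ hy hz
  | smul c y _ hy => rw [mul_smul_comm]; exact Submodule.smul_mem _ _ hy

lemma even_le (b : Module.Basis I ℂ T) (x : CliffordAlgebra Q) (hx : x ∈ evenOdd Q 0) :
    x ∈ Sev (fun i => ι Q (b i)) := by
  induction x, hx using CliffordAlgebra.even_induction with
  | algebraMap r =>
    rw [Algebra.algebraMap_eq_smul_one]
    exact Submodule.smul_mem _ _ (Submodule.subset_span ⟨[], by simp, by simp⟩)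
  | add x y hx hy h1 h2 => exact Submodule.add_mem _ h1 h2
  | ι_mul_ι_mul u v x hx h => exact pair_mem u v x h

/-- the skew map `u ∧ v` -/
def wedge (Q : QuadraticForm ℂ T) (u v : T) : T →ₗ[ℂ] T :=
  (polarBilin Q v).smulRight u - (polarBilin Q u).smulRight v

lemma wedge_apply (u v w : T) : wedge Q u v w = polar Q v w • u - polar Q u w • v := by
  simp [wedge]

/-- the element `u v` of the even Clifford algebra -/
def pairW (Q : QuadraticForm ℂ T) (u v : T) : W Q := ⟨ι Q u * ι Q v, ι_mul_ι_mem_evenOdd_zero Q u v⟩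

lemma isLiePair_wedge (u v : T) (h : polar Q u v = 0) : IsLiePair (pairW Q u v) (wedge Q u v) := by
  refine ⟨?_, fun w => ?_⟩
  · show reverse (ι Q u * ι Q v) + ι Q u * ι Q v = 0
    rw [reverse.map_mul, reverse_ι, reverse_ι, ι_mul_ι_add_swap, polar_comm, h, map_zero]
  · show ι Q u * ι Q v * ι Q w - ι Q w * (ι Q u * ι Q v) = ι Q (wedge Q u v w)
    have h1 : ι Q v * ι Q w + ι Q w * ι Q v = algebraMap ℂ _ (polar Q v w) := ι_mul_ι_add_swap v w
    have h2 : ι Q u * ι Q w + ι Q w * ι Q u = algebraMap ℂ _ (polar Q u w) := ι_mul_ι_add_swap u w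
    have h3 : polar Q v w • ι Q u = ι Q u * (ι Q v * ι Q w + ι Q w * ι Q v) := by
      rw [h1, ← Algebra.commutes, Algebra.smul_def]
    have h4 : polar Q u w • ι Q v = (ι Q u * ι Q w + ι Q w * ι Q u) * ι Q v := by
      rw [h2, Algebra.smul_def]
    rw [wedge_apply, map_sub, map_smul, map_smul, h3, h4]
    noncomm_ring

section alg

variable {A : ∀ n : ℕ, Submodule ℂ (Form Q n)}

/-- the pair `(x, Y)` kills all algebraic classes -/
def LieA (A : ∀ n : ℕ, Submodule ℂ (Form Q n)) (x : W Q) (Y : T →ₗ[ℂ] T) : Prop :=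
  ∀ n, ∀ f ∈ A n, Kills (pr x Y) f

lemma pr_add (x x' : W Q) (Y Y' : T →ₗ[ℂ] T) : pr x Y + pr x' Y' = pr (x + x') (Y + Y') := by
  refine LinearMap.ext fun v => Prod.ext ?_ ?_
  · show x * v.1 + x' * v.1 = (x + x') * v.1
    rw [add_mul]
  · rfl

lemma pr_smul (c : ℂ) (x : W Q) (Y : T →ₗ[ℂ] T) : c • pr x Y = pr (c • x) (c • Y) := by
  refine LinearMap.ext fun v => Prod.ext ?_ ?_
  · show c • (x * v.1) = (c • x) * v.1
    rw [smul_mul_assoc]
  · rfl

lemma pr_bracket (x x' : W Q) (Y Y' : T →ₗ[ℂ] T) :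
    pr x Y ∘ₗ pr x' Y' - pr x' Y' ∘ₗ pr x Y = pr (x * x' - x' * x) (Y ∘ₗ Y' - Y' ∘ₗ Y) := by
  refine LinearMap.ext fun v => Prod.ext ?_ ?_
  · show x * (x' * v.1) - x' * (x * v.1) = (x * x' - x' * x) * v.1
    rw [sub_mul, mul_assoc, mul_assoc]
  · rfl

lemma LieA.add {x x' : W Q} {Y Y' : T →ₗ[ℂ] T} (h : LieA A x Y) (h' : LieA A x' Y') :
    LieA A (x + x') (Y + Y') := by
  intro n f hf
  rw [← pr_add]
  exact (h n f hf).add (h' n f hf)

lemma LieA.smul {x : W Q} {Y : T →ₗ[ℂ] T} (c : ℂ) (h : LieA A x Y) :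
    LieA A (c • x) (c • Y) := by
  intro n f hf
  rw [← pr_smul]
  exact (h n f hf).smul c

lemma LieA.bracket {x x' : W Q} {Y Y' : T →ₗ[ℂ] T} (h : LieA A x Y) (h' : LieA A x' Y') :
    LieA A (x * x' - x' * x) (Y ∘ₗ Y' - Y' ∘ₗ Y) := by
  intro n f hf
  rw [← pr_bracket]
  exact (h n f hf).bracket (h' n f hf)

lemma LieA.zero : LieA A (0 : W Q) 0 := by
  intro n f hf v
  refine Finset.sum_eq_zero (fun i _ => ?_)
  have : (pr (0 : W Q) (0 : T →ₗ[ℂ] T)) (v i) = 0 := by
    refine Prod.ext ?_ rfl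
    show (0 : W Q) * (v i).1 = 0
    rw [zero_mul]
  rw [this]
  exact f.map_update_zero v i

lemma eq_of_lam {z z' : CliffordAlgebra Q}
    (h : ∀ μ : CliffordAlgebra Q →ₗ[ℂ] ℂ, μ z = μ z') : z = z' := by
  have h1 : z - z' = 0 := by
    rw [← Module.forall_dual_apply_eq_zero_iff ℂ]
    intro μ
    rw [map_sub, h, sub_self]
  exact sub_eq_zero.mp h1

lemma reverse_mem (x : W Q) : reverse (x : CliffordAlgebra Q) ∈ even Q := by
  have h := (CliffordAlgebra.reverse_mem_evenOdd_iff (Q := Q) (x := (x : CliffordAlgebra Q))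
    (n := 0)).2 x.2
  exact h

lemma LieA.skew (hA : IsMotivic A) {x : W Q} {Y : T →ₗ[ℂ] T}
    (h : LieA A x Y) : reverse (x : CliffordAlgebra Q) + (x : CliffordAlgebra Q) = 0 := by
  apply eq_of_lam
  intro μ
  obtain ⟨f, hf, hfv⟩ := hA.2.1 μ
  have h1 := h 2 f hf ![(1, 0), (1, 0)]
  rw [Fin.sum_univ_two, hfv, hfv] at h1
  simp only [pr, Matrix.cons_val_zero, Matrix.cons_val_one, Function.update_self,
    Function.update_of_ne (zero_ne_one : (0 : Fin 2) ≠ 1),
    Function.update_of_ne (one_ne_zero : (1 : Fin 2) ≠ 0), LinearMap.prodMap_apply,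
    LinearMap.mulLeft_apply, OneMemClass.coe_one, mul_one, reverse.map_one, one_mul] at h1
  rw [map_add, h1, map_zero]

end alg

end Pool.Agent.K1H14.KS
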