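import Pool.Agent.K1H14.KS.Core

namespace Pool.Agent.K1H14.KS

open CliffordAlgebra QuadraticMap

variable {T : Type*} [AddCommGroup T] [Module ℂ T] {Q : QuadraticForm ℂ T}
  {I : Type*} [DecidableEq I]
  {A : ∀ n : ℕ, Submodule ℂ (Form Q n)}

/-- an automorphism which fixes all algebraic classes -/
def Stab (A : ∀ n : ℕ, Submodule ℂ (Form Q n)) (g : V Q ≃ₗ[ℂ] V Q) : Prop :=
  ∀ m, ∀ f ∈ A m, Fixes (g : V Q →ₗ[ℂ] V Q) f

lemma stab_form (hA : IsMotivic A) {g : V Q ≃ₗ[ℂ] V Q} (hg : Stab A g)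
    (μ : CliffordAlgebra Q →ₗ[ℂ] ℂ) (v w : V Q) :
    μ (reverse ((g v).1 : CliffordAlgebra Q) * ((g w).1 : CliffordAlgebra Q)) =
      μ (reverse (v.1 : CliffordAlgebra Q) * (w.1 : CliffordAlgebra Q)) := by
  obtain ⟨f, hf, hfv⟩ := hA.2.1 μ
  have h1 := hg 2 f hf ![v, w]
  rw [hfv, hfv] at h1
  exact h1

lemma stab_polar (hA : IsMotivic A) {g : V Q ≃ₗ[ℂ] V Q} (hg : Stab A g)
    (v w : V Q) : polar Q (g v).2 (g w).2 = polar Q v.2 w.2 := by
  obtain ⟨f, hf, hfv⟩ := hA.2.2.1
  have h1 := hg 2 f hf ![v, w]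
  rw [hfv, hfv] at h1
  exact h1

/-- an automorphism which fixes all algebraic classes is a pair `(x, t)` -/
lemma stab_structure (hA : IsMotivic A) (hQ : ∀ t : T, (∀ s : T, polar Q s t = 0) → t = 0)
    {g : V Q ≃ₗ[ℂ] V Q} (hg : Stab A g) :
    ∃ (x : W Q) (t : T →ₗ[ℂ] T), (g : V Q →ₗ[ℂ] V Q) = pr x t ∧
      reverse (x : CliffordAlgebra Q) * (x : CliffordAlgebra Q) = 1 ∧
      (x : CliffordAlgebra Q) * reverse (x : CliffordAlgebra Q) = 1 ∧
      (∀ v w, polar Q (t v) (t w) = polar Q v w) := by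
  have h0 : ∀ t : T, (g ((0 : W Q), t)).1 = 0 := by
    intro t
    apply Subtype.ext
    apply eq_of_lam
    intro μ
    have h1 := stab_form hA hg μ (g.symm (1, 0)) ((0 : W Q), t)
    rw [LinearEquiv.apply_symm_apply] at h1
    simpa using h1
  have h0' : ∀ w : W Q, (g (w, (0 : T))).2 = 0 := by
    intro w
    apply hQ
    intro s
    have h1 := stab_polar hA hg (g.symm (0, s)) (w, 0)
    rw [LinearEquiv.apply_symm_apply] at h1
    rw [h1]
    simp [polar]
  have h1 : ∀ w : W Q, (g (w, (0 : T))).1 = (g ((1 : W Q), (0 : T))).1 * w := by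
    intro w
    apply Subtype.ext
    apply eq_of_lam
    intro μ
    have e1 := stab_form hA hg μ (g.symm (1, 0)) (w, 0)
    have e2 := stab_form hA hg (μ ∘ₗ LinearMap.mulRight ℂ (w : CliffordAlgebra Q))
      (g.symm (1, 0)) (1, 0)
    rw [LinearEquiv.apply_symm_apply] at e1 e2
    simp only [OneMemClass.coe_one, mul_one, one_mul, reverse.map_one, LinearMap.comp_apply,
      LinearMap.mulRight_apply] at e1 e2
    rw [e1, MulMemClass.coe_mul, e2]
  set x : W Q := (g ((1 : W Q), (0 : T))).1 with hx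
  let t : T →ₗ[ℂ] T := LinearMap.snd ℂ (W Q) T ∘ₗ (g : V Q →ₗ[ℂ] V Q) ∘ₗ LinearMap.inr ℂ (W Q) T
  have hgv : (g : V Q →ₗ[ℂ] V Q) = pr x t := by
    refine LinearMap.ext fun v => ?_
    have e1 : v = (v.1, 0) + (0, v.2) := by simp
    have e2 : g v = g (v.1, 0) + g (0, v.2) := by rw [← map_add, ← e1]
    refine Prod.ext ?_ ?_
    · show (g v).1 = x * v.1
      rw [e2, Prod.fst_add, h1, h0, add_zero]
    · show (g v).2 = (g (0, v.2)).2
      rw [e2, Prod.snd_add, h0', zero_add]
  have hxx : reverse (x : CliffordAlgebra Q) * (x : CliffordAlgebra Q) = 1 := by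
    apply eq_of_lam
    intro μ
    have e2 := stab_form hA hg μ (1, 0) (1, 0)
    rw [← hx] at e2
    simpa using e2
  refine ⟨x, t, hgv, hxx, ?_, ?_⟩
  · -- `x` is right invertible
    have e1 : x * (g.symm ((1 : W Q), (0 : T))).1 = 1 := by
      have e2 : (g : V Q →ₗ[ℂ] V Q) (g.symm ((1 : W Q), (0 : T))) = (1, 0) := by simp
      rw [hgv] at e2
      exact congrArg Prod.fst e2
    set y := (g.symm ((1 : W Q), (0 : T))).1
    have e3 : (x : CliffordAlgebra Q) * (y : CliffordAlgebra Q) = 1 := by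
      have := congrArg Subtype.val e1
      exact this
    have e4 : reverse (x : CliffordAlgebra Q) = y := by
      calc reverse (x : CliffordAlgebra Q) = reverse (x : CliffordAlgebra Q) * (x * y) := by
            rw [e3, mul_one]
        _ = y := by rw [← mul_assoc, hxx, one_mul]
    rw [e4, e3]
  · intro v w
    exact stab_polar hA hg (0, v) (0, w)

/-- the relation `x (u v) x* = (t u) (t v)` -/
lemma stab_pair (hA : IsMotivic A) (hNN : NN A = ⊥)
    {g : V Q ≃ₗ[ℂ] V Q} (hg : Stab A g) {x : W Q} {t : T →ₗ[ℂ] T}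
    (hgx : (g : V Q →ₗ[ℂ] V Q) = pr x t)
    (hx : reverse (x : CliffordAlgebra Q) * (x : CliffordAlgebra Q) = 1)
    (ht : ∀ v w, polar Q (t v) (t w) = polar Q v w) {u v : T} (huv : polar Q u v = 0) :
    (x : CliffordAlgebra Q) * (ι Q u * ι Q v) * reverse (x : CliffordAlgebra Q) =
      ι Q (t u) * ι Q (t v) := by
  let rx : W Q := ⟨reverse (x : CliffordAlgebra Q), reverse_mem x⟩
  have h1 : LieA A (pairW Q u v) (wedge Q u v) :=
    fun m f hf => (hA.1 m f hf).2 _ _ (isLiePair_wedge _ _ huv)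
  have h2 : LieA A (pairW Q (t u) (t v)) (wedge Q (t u) (t v)) :=
    fun m f hf => (hA.1 m f hf).2 _ _ (isLiePair_wedge _ _ (by rw [ht, huv]))
  have h3 : LieA A (x * pairW Q u v * rx) (wedge Q (t u) (t v)) := by
    intro m f hf
    have h4 := (h1 m f hf).conj (hg m f hf)
    have h5 : (g : V Q →ₗ[ℂ] V Q) ∘ₗ pr (pairW Q u v) (wedge Q u v) ∘ₗ
        (g.symm : V Q →ₗ[ℂ] V Q) = pr (x * pairW Q u v * rx) (wedge Q (t u) (t v)) := by
      refine LinearMap.ext fun z => ?_
      obtain ⟨z, rfl⟩ := g.surjective z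
      rw [LinearMap.comp_apply, LinearMap.comp_apply]
      have e1 : (g.symm : V Q →ₗ[ℂ] V Q) (g z) = z := g.symm_apply_apply z
      rw [e1]
      have e2 : g z = pr x t z := by rw [← hgx]; rfl
      rw [hgx, e2]
      refine Prod.ext ?_ ?_
      · show x * (pairW Q u v * z.1) = x * pairW Q u v * rx * (x * z.1)
        have e3 : rx * x = 1 := Subtype.ext hx
        rw [mul_assoc (x * pairW Q u v), ← mul_assoc rx, e3, one_mul, mul_assoc]
      · show t (wedge Q u v z.2) = wedge Q (t u) (t v) (t z.2)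
        rw [wedge_apply, wedge_apply, ht, ht, map_sub, map_smul, map_smul]
    rw [h5] at h4
    exact h4
  have h6 := h3.add (h2.smul (-1))
  rw [neg_one_smul ℂ (wedge Q (t u) (t v)), add_neg_cancel] at h6
  have h7 := mem_NN.mpr h6
  rw [hNN, Submodule.mem_bot, AddMemClass.coe_add, neg_one_smul, NegMemClass.coe_neg,
    ← sub_eq_add_neg, sub_eq_zero] at h7
  exact h7

lemma exists_sign {R : Type*} [Ring R] [Algebra ℂ R] [Nontrivial R] [Fintype I]
    (hI : Odd (Fintype.card I)) (hI2 : 2 ≤ Fintype.card I) (E F : I → R) (hE : Anti E)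
    (hFF : ∀ i, F i * F i = 1) (X Xr : R) (hx : Xr * X = 1) (hx' : X * Xr = 1)
    (hp : ∀ i j, i ≠ j → X * (E i * E j) * Xr = F i * F j)
    (hev : ∀ i, Xr * (F i * (X * E i * Xr)) * X ∈ Sev E) :
    ∃ c : ℂ, (c = 1 ∨ c = -1) ∧ ∀ i, F i = c • (X * E i * Xr) := by
  obtain ⟨E', hE'⟩ : ∃ E' : I → R, ∀ i, E' i = X * E i * Xr := ⟨_, fun _ => rfl⟩
  have hpair : ∀ i j, E' i * E' j = X * (E i * E j) * Xr := by
    intro i j
    rw [hE', hE']
    calc X * E i * Xr * (X * E j * Xr) = X * E i * (Xr * X) * E j * Xr := by noncomm_ring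
      _ = X * (E i * E j) * Xr := by rw [hx]; noncomm_ring
  have hE'E' : ∀ i, E' i * E' i = 1 := by
    intro i
    rw [hpair, hE.sq, mul_one, hx']
  have hEF : ∀ i j, i ≠ j → E' i * E' j = F i * F j := by
    intro i j hij
    rw [hpair, hp i j hij]
  obtain ⟨i₀⟩ : Nonempty I := by
    rw [← Fintype.card_pos_iff]; omega
  obtain ⟨z, hz⟩ : ∃ z : R, z = F i₀ * E' i₀ := ⟨_, rfl⟩
  have hzj : ∀ j, F j = z * E' j := by
    intro j
    by_cases h : j = i₀
    · rw [hz, h, mul_assoc, hE'E', mul_one]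
    · have h1 := hEF i₀ j (fun e => h e.symm)
      calc F j = F i₀ * (F i₀ * F j) := by rw [← mul_assoc, hFF, one_mul]
        _ = z * E' j := by rw [← h1, hz, mul_assoc]
  have hzz : ∀ i, z * E' i * z = E' i := by
    intro i
    obtain ⟨j, hj⟩ : ∃ j : I, j ≠ i := by
      have : Nontrivial I := Fintype.one_lt_card_iff_nontrivial.mp hI2
      exact exists_ne i
    have h1 := hEF i j hj.symm
    rw [hzj i, hzj j] at h1
    calc z * E' i * z = (z * E' i * (z * E' j)) * E' j := by
          rw [← mul_assoc, mul_assoc (z * E' i * z), hE'E', mul_one]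
      _ = E' i := by rw [← h1, mul_assoc, hE'E', mul_one]
  have hzc : ∀ i j, z * (E' i * E' j) = E' i * E' j * z := by
    intro i j
    calc z * (E' i * E' j) = z * E' i * (z * E' j * z) := by rw [hzz j, mul_assoc]
      _ = (z * E' i * z) * E' j * z := by noncomm_ring
      _ = E' i * E' j * z := by rw [hzz i]
  obtain ⟨c, hc⟩ := scalar_of_commute hI hE (Xr * z * X) (by rw [hz, hE']; exact hev i₀) (by
    intro i j hij
    have e2 := hzc i j
    rw [hpair] at e2
    calc E i * E j * (Xr * z * X) = (Xr * X) * (E i * E j) * Xr * z * X := by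
          rw [hx]; noncomm_ring
      _ = Xr * (X * (E i * E j) * Xr * z) * X := by noncomm_ring
      _ = Xr * (z * (X * (E i * E j) * Xr)) * X := by rw [e2]
      _ = Xr * z * X * (E i * E j) * (Xr * X) := by noncomm_ring
      _ = Xr * z * X * (E i * E j) := by rw [hx, mul_one])
  have hzs : z = c • (1 : R) := by
    calc z = (X * Xr) * z * (X * Xr) := by rw [hx', one_mul, mul_one]
      _ = X * (Xr * z * X) * Xr := by noncomm_ring
      _ = c • (1 : R) := by
          rw [hc, mul_smul_comm, mul_one, smul_mul_assoc, hx']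
  have hc2 : c * c = 1 := by
    have e1 := hzz i₀
    rw [hzs, smul_mul_assoc, one_mul, mul_smul_comm, mul_one, smul_smul] at e1
    have e2 : (c * c - 1) • E' i₀ = 0 := by rw [sub_smul, e1, one_smul, sub_self]
    have e3 : E' i₀ ≠ 0 := by
      intro e
      have := hE'E' i₀
      rw [e, zero_mul] at this
      exact zero_ne_one this
    exact sub_eq_zero.mp ((smul_eq_zero.mp e2).resolve_right e3)
  refine ⟨c, ?_, fun i => ?_⟩
  · have : (c - 1) * (c + 1) = 0 := by linear_combination hc2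
    rcases mul_eq_zero.mp this with h | h
    · left; linear_combination h
    · right; linear_combination h
  · rw [hzj i, hzs, smul_mul_assoc, one_mul, hE']

/-- an automorphism which fixes all algebraic classes is `(x, ± t)`, with `(x, t)` in `Spin(T)` -/
lemma stab_sign [Fintype I] (hI : Odd (Fintype.card I)) (hI2 : 2 ≤ Fintype.card I)
    (b : Module.Basis I ℂ T) (hb : ONB Q b)
    (hA : IsMotivic A) (hNN : NN A = ⊥)
    {g : V Q ≃ₗ[ℂ] V Q} (hg : Stab A g) {x : W Q} {t : T →ₗ[ℂ] T}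
    (hgx : (g : V Q →ₗ[ℂ] V Q) = pr x t)
    (hx : reverse (x : CliffordAlgebra Q) * (x : CliffordAlgebra Q) = 1)
    (hx' : (x : CliffordAlgebra Q) * reverse (x : CliffordAlgebra Q) = 1)
    (ht : ∀ v w, polar Q (t v) (t w) = polar Q v w) :
    IsSpinPair x t ∨ IsSpinPair x (-t) := by
  have : Invertible (2 : ℂ) := invertibleOfNonzero two_ne_zero
  obtain ⟨c, hcc, hc⟩ := exists_sign hI hI2 (fun i => ι Q (b i)) (fun i => ι Q (t (b i))) hb.anti
    (by
      intro i
      show ι Q (t (b i)) * ι Q (t (b i)) = 1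
      have h1 : polar Q (t (b i)) (t (b i)) = 2 := by rw [ht, hb.polar_self]
      rw [QuadraticMap.polar_self, two_nsmul] at h1
      have h2 : Q (t (b i)) = 1 := by linear_combination (1 / 2 : ℂ) * h1
      rw [ι_sq_scalar, h2, map_one])
    (x : CliffordAlgebra Q) (reverse (x : CliffordAlgebra Q)) hx hx'
    (fun i j hij => stab_pair hA hNN hg hgx hx ht (hb.orth i j hij))
    (by
      intro i
      apply even_le b
      have e2 : ι Q (t (b i)) ∈ evenOdd Q 1 := ι_mem_evenOdd_one Q _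
      have e4 : (x : CliffordAlgebra Q) * ι Q (b i) ∈ evenOdd Q (0 + 1) :=
        SetLike.mul_mem_graded x.2 (ι_mem_evenOdd_one Q _)
      have e5 : (x : CliffordAlgebra Q) * ι Q (b i) * reverse (x : CliffordAlgebra Q) ∈
        evenOdd Q (0 + 1 + 0) := SetLike.mul_mem_graded e4 (reverse_mem x)
      have e6 := SetLike.mul_mem_graded e2 e5
      have e7 := SetLike.mul_mem_graded (SetLike.mul_mem_graded (reverse_mem x) e6) x.2
      have e8 : (0 + (1 + (0 + 1 + 0)) + 0 : ZMod 2) = 0 := by decide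
      rw [e8] at e7
      exact e7)
  have hlin : ∀ v : T, ι Q (t v) =
      c • ((x : CliffordAlgebra Q) * ι Q v * reverse (x : CliffordAlgebra Q)) := by
    intro v
    have e1 : (ι Q).comp t = c • ((LinearMap.mulRight ℂ (reverse (x : CliffordAlgebra Q)) ∘ₗ
        LinearMap.mulLeft ℂ (x : CliffordAlgebra Q)) ∘ₗ ι Q) := b.ext hc
    exact LinearMap.congr_fun e1 v
  rcases hcc with h | h
  · left
    exact ⟨hx, fun v => by rw [hlin v, h, one_smul]⟩
  · right
    refine ⟨hx, fun v => ?_⟩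
    rw [LinearMap.neg_apply, map_neg, hlin v, h, neg_one_smul, neg_neg]

/-- with a link, the automorphisms fixing all algebraic classes are the elements of `Spin(T)` -/
lemma stab_spin [Fintype I] (hI : Odd (Fintype.card I)) (hI2 : 2 ≤ Fintype.card I)
    (b : Module.Basis I ℂ T) (hb : ONB Q b)
    (hA : IsMotivic A) (hQ : ∀ t : T, (∀ s : T, polar Q s t = 0) → t = 0) (hL : HasLink A)
    {g : V Q ≃ₗ[ℂ] V Q} (hg : Stab A g) :
    ∃ (x : W Q) (t : T →ₗ[ℂ] T), (g : V Q →ₗ[ℂ] V Q) = pr x t ∧ IsSpinPair x t := by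
  have hNN : NN A = ⊥ := NN_eq_bot hI b hb hA (fun i j hij => not_lieA b hb hA hL hij)
  obtain ⟨x, t, hgx, hx, hx', ht⟩ := stab_structure hA hQ hg
  refine ⟨x, t, hgx, ?_⟩
  rcases stab_sign hI hI2 b hb hA hNN hg hgx hx hx' ht with h | h
  · exact h
  · exfalso
    obtain ⟨n, u, j, w, s, hu, hne⟩ := hL
    apply hne
    have e1 := hg n u hu (Function.update (fun i => ((w i, 0) : V Q)) j (0, s))
    rw [hgx] at e1
    have e2 := (hA.1 n u hu).1 x (-t) h (Function.update (fun i => ((w i, 0) : V Q)) j (0, s))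
    have e3 : ∀ t' : T →ₗ[ℂ] T, (fun i => pr x t' (Function.update
        (fun i => ((w i, 0) : V Q)) j (0, s) i)) =
        Function.update (fun i => ((x * w i, 0) : V Q)) j (0, t' s) := by
      intro t'
      funext i
      by_cases hij : i = j
      · subst hij
        rw [Function.update_self, Function.update_self]
        exact Prod.ext (mul_zero x) rfl
      · rw [Function.update_of_ne hij, Function.update_of_ne hij]
        exact Prod.ext rfl (map_zero t')
    rw [e3] at e1 e2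
    have e4 : ((0 : W Q), (-t) s) = (-1 : ℂ) • ((0 : W Q), t s) := by
      refine Prod.ext ?_ ?_
      · show (0 : W Q) = (-1 : ℂ) • 0
        rw [smul_zero]
      · show -(t s) = (-1 : ℂ) • t s
        rw [neg_one_smul]
    rw [e4, u.map_update_smul, e1, neg_one_smul] at e2
    exact self_eq_neg.mp e2.symm

end Pool.Agent.K1H14.KS
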